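import Pool.Agent.X306.JB.D

/-!
# The additive version: derivations
-/

set_option autoImplicit false

open Module TensorProduct Finset

universe u

namespace Pool.Agent.X306.JC

open Pool.Agent.X306.JB

variable {E : Type u} [Field E]

section dbl

variable {W A C : Type u} [AddCommGroup W] [Module E W] [AddCommGroup A] [Module E A] [AddCommGroup C] [Module E C]

theorem sd_add {g : Module.End E W} (c : E) : sd (g + c • (1 : Module.End E W)) = sd g := by
  unfold sd
  have h1 : (⨆ μ : E, (g + c • (1 : Module.End E W)).eigenspace μ) = ⨆ μ : E, g.eigenspace μ := by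
    refine le_antisymm (iSup_le fun μ x hx => ?_) (iSup_le fun μ x hx => ?_)
    · have h2 := Module.End.mem_eigenspace_iff.1 hx
      refine Submodule.mem_iSup_of_mem (μ - c) (Module.End.mem_eigenspace_iff.2 ?_)
      rw [LinearMap.add_apply, LinearMap.smul_apply, Module.End.one_apply] at h2
      rw [sub_smul, ← h2, add_sub_cancel_right]
    · have h2 := Module.End.mem_eigenspace_iff.1 hx
      refine Submodule.mem_iSup_of_mem (μ + c) (Module.End.mem_eigenspace_iff.2 ?_)
      rw [LinearMap.add_apply, LinearMap.smul_apply, Module.End.one_apply, h2, add_smul]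
  rw [h1]

/-- The derivation `g ⊗ 1 + 1 ⊗ n`, where `n` is the nilpotent block of size two: `(x, y) ↦ (g x + y, g y)`. -/
noncomputable def dbl (g : Module.End E W) : Module.End E (W × W) :=
  (g.coprod LinearMap.id).prod (g.comp (LinearMap.snd E W W))

theorem dbl_apply (g : Module.End E W) (x : W × W) : dbl g x = (g x.1 + x.2, g x.2) := rfl

/-- The dimension of the semisimple part of the derivation `g ⊗ 1 + 1 ⊗ n ⊗ 1 + ...` on `W ⊗ (E²)^{⊗ m}`. -/
noncomputable def aa : (m : ℕ) → {W : Type u} → [AddCommGroup W] → [Module E W] → Module.End E W → ℕ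
  | 0, _, _, _, g => sd g
  | m + 1, _, _, _, g => aa m (dbl g)

theorem aa_zero (g : Module.End E W) : aa 0 g = sd g := rfl

theorem aa_succ (m : ℕ) (g : Module.End E W) : aa (m + 1) g = aa m (dbl g) := rfl

theorem aa_exact (m : ℕ) : ∀ {W A C : Type u} [AddCommGroup W] [Module E W] [AddCommGroup A] [Module E A]
    [AddCommGroup C] [Module E C] [FiniteDimensional E W] [FiniteDimensional E C] {g : Module.End E W}
    {a : Module.End E A} {c : Module.End E C} (i : A →ₗ[E] W) (p : W →ₗ[E] C), Function.Injective i →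
    (∀ x, p x = 0 → ∃ y, i y = x) → (∀ y, g (i y) = i (a y)) → (∀ x, p (g x) = c (p x)) →
    aa m g ≤ aa m a + aa m c := by
  induction m with
  | zero =>
    intro W A C _ _ _ _ _ _ _ _ g a c i p hi hp h1 h2
    exact sd_exact i p hi hp h1 h2
  | succ m ih =>
    intro W A C _ _ _ _ _ _ _ _ g a c i p hi hp h1 h2
    rw [aa_succ, aa_succ, aa_succ]
    refine ih (i.prodMap i) (p.prodMap p) ?_ ?_ ?_ ?_
    · rintro ⟨x, y⟩ ⟨x', y'⟩ h
      rw [LinearMap.prodMap_apply, LinearMap.prodMap_apply, Prod.mk.injEq] at h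
      exact Prod.ext (hi h.1) (hi h.2)
    · rintro ⟨x, y⟩ h
      rw [LinearMap.prodMap_apply, Prod.mk_eq_zero] at h
      obtain ⟨x', hx'⟩ := hp _ h.1
      obtain ⟨y', hy'⟩ := hp _ h.2
      refine ⟨(x', y'), ?_⟩
      rw [LinearMap.prodMap_apply]
      exact Prod.ext hx' hy'
    · rintro ⟨x, y⟩
      rw [LinearMap.prodMap_apply, dbl_apply, dbl_apply, LinearMap.prodMap_apply]
      refine Prod.ext ?_ ?_
      · change g (i x) + i y = i (a x + y)
        rw [h1, map_add]
      · exact h1 y
    · rintro ⟨x, y⟩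
      rw [LinearMap.prodMap_apply, dbl_apply, dbl_apply, LinearMap.prodMap_apply]
      refine Prod.ext ?_ ?_
      · change p (g x + y) = c (p x) + p y
        rw [map_add, h2]
      · exact h2 y

theorem aa_equiv (m : ℕ) : ∀ {W A : Type u} [AddCommGroup W] [Module E W] [AddCommGroup A] [Module E A]
    {g : Module.End E W} {a : Module.End E A} (e : W ≃ₗ[E] A), (∀ x, e (g x) = a (e x)) → aa m g = aa m a := by
  induction m with
  | zero => intro W A _ _ _ _ g a e h; exact sd_equiv e h
  | succ m ih =>
    intro W A _ _ _ _ g a e h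
    rw [aa_succ, aa_succ]
    refine ih (e.prodCongr e) ?_
    rintro ⟨x, y⟩
    refine Prod.ext ?_ ?_
    · change e (g x + y) = a (e x) + e y
      rw [map_add, h]
    · exact h y

theorem aa_add (m : ℕ) : ∀ {W : Type u} [AddCommGroup W] [Module E W] {g : Module.End E W} (c : E),
    aa m (g + c • (1 : Module.End E W)) = aa m g := by
  induction m with
  | zero => intro W _ _ g c; exact sd_add c
  | succ m ih =>
    intro W _ _ g c
    rw [aa_succ, aa_succ, ← ih (W := W × W) (g := dbl g) c]
    congr 1
    refine LinearMap.ext fun x => ?_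
    refine Prod.ext ?_ ?_
    · change g x.1 + c • x.1 + x.2 = g x.1 + x.2 + c • x.1
      abel
    · rfl

theorem aa_subsingleton (m : ℕ) : ∀ {W : Type u} [AddCommGroup W] [Module E W] [Subsingleton W] (g : Module.End E W),
    aa m g = 0 := by
  induction m with
  | zero =>
    intro W _ _ _ g
    exact finrank_zero_of_subsingleton
  | succ m ih =>
    intro W _ _ _ g
    exact ih _

end dbl

section tensor

variable {W V : Type u} [AddCommGroup W] [Module E W] [AddCommGroup V] [Module E V]

/-- The derivation `g ⊗ 1 + 1 ⊗ f`. -/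
noncomputable def der (g : Module.End E W) (f : Module.End E V) : Module.End E (W ⊗[E] V) :=
  g.rTensor V + f.lTensor W

theorem der_tmul (g : Module.End E W) (f : Module.End E V) (x : W) (y : V) :
    der g f (x ⊗ₜ y) = g x ⊗ₜ y + x ⊗ₜ f y := rfl

theorem lT_der {f : Module.End E V} {J : Submodule E V} (hJ : J ≤ J.comap f) (g : Module.End E W) (x : W ⊗[E] V) :
    J.mkQ.lTensor W (der g f x) = der g (J.mapQ J f hJ) (J.mkQ.lTensor W x) := by
  induction x using TensorProduct.induction_on with
  | zero => simp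
  | tmul x y => rfl
  | add x y hx hy => rw [map_add, map_add, map_add, map_add, hx, hy]

/-- One line. -/
theorem aa_line [FiniteDimensional E W] [FiniteDimensional E V] (m : ℕ) {g : Module.End E W} {f : Module.End E V}
    {v : V} {l : E} (hv : v ≠ 0) (h : f v = l • v) (hJ : (E ∙ v) ≤ (E ∙ v).comap f) :
    aa m (der g f) ≤ aa m g + aa m (der g ((E ∙ v).mapQ (E ∙ v) f hJ)) := by
  rw [← aa_add m (g := g) l]
  set i : W →ₗ[E] W ⊗[E] V := (TensorProduct.mk E W V).flip v with hi
  have hi' : ∀ x, i x = x ⊗ₜ v := fun x => rfl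
  refine aa_exact m i ((E ∙ v).mkQ.lTensor W) ?_ ?_ ?_ ?_
  · obtain ⟨φ, h1, -⟩ := exists_fun (S := (⊥ : Submodule E V)) (x := v) (by rwa [Submodule.mem_bot])
    intro x y hxy
    have h2 := congrArg (fun z => TensorProduct.rid E W (φ.lTensor W z)) hxy
    simpa [hi', h1] using h2
  · intro x hx
    obtain ⟨z, rfl⟩ := ker_lT hx
    clear hx
    induction z using TensorProduct.induction_on with
    | zero => exact ⟨0, by simp⟩
    | tmul x y =>
      obtain ⟨y, hy⟩ := y
      obtain ⟨c, rfl⟩ := Submodule.mem_span_singleton.1 hy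
      refine ⟨c • x, ?_⟩
      rw [hi', LinearMap.lTensor_tmul]
      change (c • x) ⊗ₜ[E] v = x ⊗ₜ[E] (c • v)
      rw [TensorProduct.smul_tmul]
    | add x y hx hy =>
      obtain ⟨a, ha⟩ := hx
      obtain ⟨b, hb⟩ := hy
      exact ⟨a + b, by rw [map_add, map_add, ha, hb]⟩
  · intro y
    rw [hi', hi', der_tmul, h]
    change _ = (g y + l • y) ⊗ₜ[E] v
    rw [TensorProduct.add_tmul, TensorProduct.tmul_smul, TensorProduct.smul_tmul']
  · intro x
    exact lT_der hJ g x

/-- One block of size two. -/
theorem aa_block [FiniteDimensional E W] [FiniteDimensional E V] (m : ℕ) {g : Module.End E W} {f : Module.End E V}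
    {w v : V} {l : E} (hw : w ≠ 0) (h1 : f w = l • w) (h2 : f v = l • v + w)
    (hJ : Submodule.span E {w, v} ≤ (Submodule.span E {w, v}).comap f) :
    aa m (der g f) ≤
      aa (m + 1) g + aa m (der g ((Submodule.span E {w, v}).mapQ (Submodule.span E {w, v}) f hJ)) := by
  have hvw : v ∉ (E ∙ w) := by
    intro h
    obtain ⟨c, rfl⟩ := Submodule.mem_span_singleton.1 h
    rw [map_smul, h1, smul_comm c l w, left_eq_add] at h2
    exact hw h2
  have hwv : w ∉ (E ∙ v) := by
    intro h
    obtain ⟨c, hc⟩ := Submodule.mem_span_singleton.1 h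
    have hc0 : c ≠ 0 := by
      rintro rfl
      rw [zero_smul] at hc
      exact hw hc.symm
    exact hvw (Submodule.mem_span_singleton.2 ⟨c⁻¹, by rw [← hc, smul_smul, inv_mul_cancel₀ hc0, one_smul]⟩)
  rw [aa_succ, ← aa_add m (g := dbl g) l]
  set i : (W × W) →ₗ[E] W ⊗[E] V :=
    ((TensorProduct.mk E W V).flip w).coprod ((TensorProduct.mk E W V).flip v) with hi
  have hi' : ∀ x, i x = x.1 ⊗ₜ w + x.2 ⊗ₜ v := fun x => rfl
  refine aa_exact m i ((Submodule.span E {w, v}).mkQ.lTensor W) ?_ ?_ ?_ ?_
  · obtain ⟨φ, h3, h4⟩ := exists_fun hwv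
    obtain ⟨ψ, h5, h6⟩ := exists_fun hvw
    have h4' := h4 v (Submodule.mem_span_singleton_self v)
    have h6' := h6 w (Submodule.mem_span_singleton_self w)
    intro x y hxy
    refine Prod.ext ?_ ?_
    · have h7 := congrArg (fun z => TensorProduct.rid E W (φ.lTensor W z)) hxy
      simpa [hi', h3, h4'] using h7
    · have h7 := congrArg (fun z => TensorProduct.rid E W (ψ.lTensor W z)) hxy
      simpa [hi', h5, h6'] using h7
  · intro x hx
    obtain ⟨z, rfl⟩ := ker_lT hx
    clear hx
    induction z using TensorProduct.induction_on with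
    | zero => exact ⟨0, by simp⟩
    | tmul x y =>
      obtain ⟨y, hy⟩ := y
      obtain ⟨c, d, rfl⟩ := Submodule.mem_span_pair.1 hy
      refine ⟨(c • x, d • x), ?_⟩
      rw [hi', LinearMap.lTensor_tmul]
      change (c • x) ⊗ₜ[E] w + (d • x) ⊗ₜ[E] v = x ⊗ₜ[E] (c • w + d • v)
      rw [TensorProduct.smul_tmul, TensorProduct.smul_tmul, TensorProduct.tmul_add]
    | add x y hx hy =>
      obtain ⟨a, ha⟩ := hx
      obtain ⟨b, hb⟩ := hy
      exact ⟨a + b, by rw [map_add, map_add, ha, hb]⟩
  · rintro ⟨x, y⟩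
    rw [hi', hi', map_add, der_tmul, der_tmul, h1, h2]
    change g x ⊗ₜ[E] w + x ⊗ₜ[E] (l • w) + (g y ⊗ₜ[E] v + y ⊗ₜ[E] (l • v + w)) =
      (g x + y + l • x) ⊗ₜ[E] w + (g y + l • y) ⊗ₜ[E] v
    rw [TensorProduct.tmul_add, TensorProduct.add_tmul, TensorProduct.add_tmul, TensorProduct.add_tmul,
      TensorProduct.smul_tmul, TensorProduct.smul_tmul]
    abel
  · intro x
    exact lT_der hJ g x

variable [IsAlgClosed E]

/-- The tensor product with an arbitrary endomorphism. -/
theorem aa_tensor (m : ℕ) (g : Module.End E W) [FiniteDimensional E W] : ∀ (r : ℕ) {V : Type u} [AddCommGroup V] [Module E V]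
    [FiniteDimensional E V] (f : Module.End E V), finrank E V = r →
    aa m (der g f) ≤ r * aa m g := by
  intro r
  induction r with
  | zero =>
    intro V _ _ _ f hr
    haveI : Subsingleton V := finrank_zero_iff.1 hr
    haveI : Subsingleton (W ⊗[E] V) := by
      refine ⟨fun x y => ?_⟩
      have h : ∀ x : W ⊗[E] V, x = 0 := by
        intro x
        induction x using TensorProduct.induction_on with
        | zero => rfl
        | tmul x y => rw [Subsingleton.elim y 0, TensorProduct.tmul_zero]
        | add x y hx hy => rw [hx, hy, add_zero]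
      rw [h x, h y]
    rw [aa_subsingleton, zero_mul]
  | succ r ih =>
    intro V _ _ _ f hr
    haveI : Nontrivial V := by
      rw [← Module.finrank_pos_iff (R := E)]
      omega
    obtain ⟨l, hl⟩ := Module.End.exists_eigenvalue f
    obtain ⟨v, hv⟩ := hl.exists_hasEigenvector
    have hv0 : v ≠ 0 := hv.2
    have hfv : f v = l • v := hv.apply_eq_smul
    have hJ : (E ∙ v) ≤ (E ∙ v).comap f := by
      rw [Submodule.span_singleton_le_iff_mem, Submodule.mem_comap, hfv]
      exact Submodule.smul_mem _ _ (Submodule.mem_span_singleton_self v)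
    refine (aa_line m (g := g) hv0 hfv hJ).trans ?_
    have h1 : finrank E (V ⧸ (E ∙ v)) = r := by
      have h2 := Submodule.finrank_quotient_add_finrank (E ∙ v)
      rw [finrank_span_singleton hv0] at h2
      omega
    have h3 := ih ((E ∙ v).mapQ (E ∙ v) f hJ) h1
    rw [add_mul, one_mul, add_comm]
    exact Nat.add_le_add_right h3 _

/-- The recursion. -/
theorem aa_rec [FiniteDimensional E W] [FiniteDimensional E V] (m : ℕ) (g : Module.End E W) {f : Module.End E V}
    {w v : V} {l : E} (hw : w ≠ 0) (h1 : f w = l • w) (h2 : f v = l • v + w) :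
    2 ≤ finrank E V ∧ aa m (der g f) ≤ aa (m + 1) g + (finrank E V - 2) * aa m g := by
  have hJ : Submodule.span E {w, v} ≤ (Submodule.span E {w, v}).comap f := by
    rw [Submodule.span_le]
    intro x hx
    rcases hx with rfl | hx
    · rw [SetLike.mem_coe, Submodule.mem_comap, h1]
      exact Submodule.smul_mem _ _ (Submodule.subset_span (Set.mem_insert _ _))
    · rw [Set.mem_singleton_iff] at hx
      subst hx
      rw [SetLike.mem_coe, Submodule.mem_comap, h2]
      exact Submodule.add_mem _ (Submodule.smul_mem _ _ (Submodule.subset_span (Set.mem_insert_of_mem _ rfl)))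
        (Submodule.subset_span (Set.mem_insert _ _))
  have hvw : v ∉ (E ∙ w) := by
    intro h
    obtain ⟨c, rfl⟩ := Submodule.mem_span_singleton.1 h
    rw [map_smul, h1, smul_comm c l w, left_eq_add] at h2
    exact hw h2
  have hli : LinearIndependent E ![w, v] := by
    rw [LinearIndependent.pair_iff' hw]
    intro c hc
    exact hvw (Submodule.mem_span_singleton.2 ⟨c, hc⟩)
  have h3 : finrank E (Submodule.span E {w, v}) = 2 := by
    have h4 := finrank_span_eq_card hli
    rw [Matrix.range_cons, Matrix.range_cons, Matrix.range_empty, Set.union_empty, Set.singleton_union,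
      Fintype.card_fin] at h4
    exact h4
  have h4 := Submodule.finrank_quotient_add_finrank (Submodule.span E {w, v})
  refine ⟨by omega, (aa_block m (g := g) hw h1 h2 hJ).trans ?_⟩
  exact Nat.add_le_add_left (aa_tensor m g _ _ (by omega)) _

/-- A vector in a block of size two, if `f` is not diagonalizable. -/
theorem exists_block [FiniteDimensional E V] {f : Module.End E V}
    (h : ⨆ μ : E, f.eigenspace μ ≠ ⊤) : ∃ (w v : V) (l : E), w ≠ 0 ∧ f w = l • w ∧ f v = l • v + w := by
  have h1 : ∃ l : E, ¬ f.maxGenEigenspace l ≤ f.eigenspace l := by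
    by_contra hcon
    push Not at hcon
    apply h
    rw [eq_top_iff, ← Module.End.iSup_maxGenEigenspace_eq_top f]
    exact iSup_mono hcon
  obtain ⟨l, hl⟩ := h1
  obtain ⟨x, hx, hx'⟩ := Set.not_subset.1 hl
  obtain ⟨k, hk⟩ := Module.End.mem_maxGenEigenspace f l x |>.1 hx
  have hex : ∃ k : ℕ, ((f - algebraMap E (Module.End E V) l) ^ k) x = 0 := ⟨k, hk⟩
  classical
  set n := Nat.find hex with hn
  have hn1 : ((f - algebraMap E (Module.End E V) l) ^ n) x = 0 := Nat.find_spec hex
  have hn2 : 2 ≤ n := by
    by_contra hcon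
    have h3 : n = 0 ∨ n = 1 := by omega
    rcases h3 with h3 | h3
    · rw [h3, pow_zero] at hn1
      apply hx'
      change x ∈ f.eigenspace l
      rw [show x = 0 from hn1]
      exact Submodule.zero_mem _
    · rw [h3, pow_one] at hn1
      apply hx'
      exact Module.End.mem_eigenspace_iff.2 (sub_eq_zero.1 hn1)
  have hmin : ((f - algebraMap E (Module.End E V) l) ^ (n - 1)) x ≠ 0 := Nat.find_min hex (by omega)
  set N := f - algebraMap E (Module.End E V) l with hN
  set v := (N ^ (n - 2)) x with hv
  set w0 := N v with hw0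
  have hw0' : w0 = (N ^ (n - 1)) x := by
    rw [hw0, hv, ← Module.End.mul_apply, ← pow_succ']
    congr 2
    omega
  have hNw : N w0 = 0 := by
    rw [hw0', ← Module.End.mul_apply, ← pow_succ', show n - 1 + 1 = n by omega]
    exact hn1
  have hfw : f w0 = l • w0 := sub_eq_zero.1 hNw
  have hfv : f v = l • v + w0 := by
    rw [hw0, hN]
    change f v = l • v + (f v - l • v)
    abel
  have hw00 : w0 ≠ 0 := by rwa [hw0']
  exact ⟨w0, v, l, hw00, hfw, hfv⟩

end tensor

end Pool.Agent.X306.JC
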