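import Pool.Agent.X306.JC.A

/-!
# The nilpotent blocks: polynomials and the derivative; the bound
-/

set_option autoImplicit false

open Module TensorProduct Polynomial Finset

universe u

namespace Pool.Agent.X306.JC

open Pool.Agent.X306.JB

variable {E : Type u} [Field E]

theorem deriv_mem {k : ℕ} {f : E[X]} (hf : f ∈ degreeLT E k) : derivative f ∈ degreeLT E k := by
  rw [mem_dL] at hf ⊢
  intro i hi
  rw [coeff_derivative, hf (i + 1) (by omega), zero_mul]

/-- The derivative on the polynomials of degree less than `k`. -/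
noncomputable def dd (k : ℕ) : Module.End E (degreeLT E k) where
  toFun f := ⟨derivative f.1, deriv_mem f.2⟩
  map_add' x y := Subtype.ext (derivative_add (f := x.1) (g := y.1))
  map_smul' c x := Subtype.ext (derivative_smul c x.1)

theorem dd_val (k : ℕ) (f : degreeLT E k) : (dd k f : E[X]) = derivative (f : E[X]) := rfl

theorem aa_dd (m k : ℕ) : aa m (dbl (dd (E := E) (k + 1))) ≤ aa m (dd (E := E) k) + aa m (dd (E := E) (k + 2)) := by
  have hX : ∀ {k : ℕ} {f : E[X]}, f ∈ degreeLT E k → X * f ∈ degreeLT E (k + 1) := by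
    intro k f hf
    rw [mem_dL] at hf ⊢
    intro i hi
    obtain ⟨j, rfl⟩ : ∃ j, i = j + 1 := ⟨i - 1, by omega⟩
    rw [coeff_X_mul]
    exact hf j (by omega)
  have hmono : ∀ {k l : ℕ}, k ≤ l → ∀ {f : E[X]}, f ∈ degreeLT E k → f ∈ degreeLT E l := by
    intro k l hkl f hf
    exact degreeLT_mono hkl hf
  let i : degreeLT E k →ₗ[E] degreeLT E (k + 1) × degreeLT E (k + 1) :=
    { toFun := fun q => (⟨-(X * q.1), Submodule.neg_mem _ (hX q.2)⟩, ⟨q.1, hmono (by omega) q.2⟩)
      map_add' := fun x y => by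
        refine Prod.ext (Subtype.ext ?_) (Subtype.ext ?_)
        · change -(X * (x.1 + y.1)) = -(X * x.1) + -(X * y.1)
          ring
        · rfl
      map_smul' := fun c x => by
        refine Prod.ext (Subtype.ext ?_) (Subtype.ext ?_)
        · change -(X * (c • x.1)) = c • -(X * x.1)
          rw [mul_smul_comm, smul_neg]
        · rfl }
  let p : (degreeLT E (k + 1) × degreeLT E (k + 1)) →ₗ[E] degreeLT E (k + 2) :=
    { toFun := fun q => ⟨q.1.1 + X * q.2.1, Submodule.add_mem _ (hmono (by omega) q.1.2) (hX q.2.2)⟩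
      map_add' := fun x y => by
        refine Subtype.ext ?_
        change x.1.1 + y.1.1 + X * (x.2.1 + y.2.1) = (x.1.1 + X * x.2.1) + (y.1.1 + X * y.2.1)
        ring
      map_smul' := fun c x => by
        refine Subtype.ext ?_
        change c • x.1.1 + X * (c • x.2.1) = c • (x.1.1 + X * x.2.1)
        rw [mul_smul_comm, smul_add] }
  have hi1 : ∀ q, ((i q).1 : E[X]) = -(X * q.1) := fun _ => rfl
  have hi2 : ∀ q, ((i q).2 : E[X]) = q.1 := fun _ => rfl
  have hp1 : ∀ q, (p q : E[X]) = q.1.1 + X * q.2.1 := fun _ => rfl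
  have hadd : ∀ a b : degreeLT E (k + 1), ((a + b : degreeLT E (k + 1)) : E[X]) = a.1 + b.1 := fun _ _ => rfl
  refine aa_exact m i p ?_ ?_ ?_ ?_
  · intro x y hxy
    exact Subtype.ext (congrArg (fun z => (z.2 : E[X])) hxy)
  · rintro ⟨⟨x, hx⟩, ⟨y, hy⟩⟩ hxy
    have h1 : x + X * y = 0 := congrArg Subtype.val hxy
    have h2 : x = -(X * y) := eq_neg_of_add_eq_zero_left h1
    have h3 : y ∈ degreeLT E k := by
      rw [mem_dL]
      intro j hj
      have h4 := mem_dL.1 hx (j + 1) (by omega)
      rw [h2, coeff_neg, coeff_X_mul, neg_eq_zero] at h4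
      exact h4
    exact ⟨⟨y, h3⟩, Prod.ext (Subtype.ext h2.symm) rfl⟩
  · intro y
    rw [dbl_apply]
    refine Prod.ext (Subtype.ext ?_) (Subtype.ext ?_)
    · rw [hadd, dd_val, hi1, hi1, hi2, dd_val, derivative_neg, derivative_mul, derivative_X]
      ring
    · rw [dd_val, hi2, hi2, dd_val]
  · intro x
    rw [dbl_apply]
    refine Subtype.ext ?_
    refine (hp1 _).trans ?_
    rw [dd_val, dd_val, hp1, hadd, dd_val, derivative_add, derivative_mul, derivative_X]
    ring

/-- There is at most one line of eigenvectors. -/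
theorem sd_dd [CharZero E] (k : ℕ) : sd (dd (E := E) k) ≤ 1 := by
  have h1 : ∀ (f : E[X]) (μ : E), derivative f = μ • f → f = C (f.eval 0) := by
    intro f μ hf
    by_cases hf0 : f = 0
    · rw [hf0]; simp
    have h2 : μ = 0 := by
      have h3 := congrArg (fun g => g.coeff f.natDegree) hf
      simp only [coeff_derivative, coeff_smul, smul_eq_mul, coeff_natDegree] at h3
      rw [coeff_eq_zero_of_natDegree_lt (Nat.lt_succ_self _), zero_mul] at h3
      have h4 : f.leadingCoeff ≠ 0 := leadingCoeff_ne_zero.2 hf0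
      rcases mul_eq_zero.1 h3.symm with h | h
      · exact h
      · exact absurd h h4
    rw [h2, zero_smul] at hf
    have h3 := natDegree_eq_zero_of_derivative_eq_zero hf
    rw [eq_C_of_natDegree_eq_zero h3, eval_C]
  unfold sd
  set S : Submodule E (degreeLT E k) := ⨆ μ : E, (dd k).eigenspace μ with hS
  have h2 : ∀ x ∈ S, (x : E[X]) = C ((x : E[X]).eval 0) := by
    let K : Submodule E (degreeLT E k) :=
      { carrier := {x | (x : E[X]) = C ((x : E[X]).eval 0)}
        add_mem' := fun {a b} ha hb => by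
          change (a : E[X]) + b = C (((a : E[X]) + b).eval 0)
          rw [eval_add, C_add, ← (show (a : E[X]) = _ from ha), ← (show (b : E[X]) = _ from hb)]
        zero_mem' := by
          change (0 : E[X]) = C ((0 : E[X]).eval 0)
          simp
        smul_mem' := fun c x hx => by
          change c • (x : E[X]) = C ((c • (x : E[X])).eval 0)
          rw [eval_smul, smul_eq_mul, C_mul, ← (show (x : E[X]) = _ from hx), smul_eq_C_mul] }
    have h3 : S ≤ K := by
      rw [hS]
      refine iSup_le fun μ x hx => ?_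
      exact h1 _ μ (congrArg Subtype.val (Module.End.mem_eigenspace_iff.1 hx))
    exact fun x hx => h3 hx
  let ev : degreeLT E k →ₗ[E] E := (leval 0).comp (degreeLT E k).subtype
  have h3 : Function.Injective (ev.domRestrict S) := by
    intro x y hxy
    have h4 : (x.1 : E[X]).eval 0 = (y.1 : E[X]).eval 0 := hxy
    refine Subtype.ext (Subtype.ext ?_)
    rw [h2 x.1 x.2, h2 y.1 y.2, h4]
  have h5 := LinearMap.finrank_le_finrank_of_injective h3
  rwa [finrank_self] at h5

theorem aa_dd_le [CharZero E] (m : ℕ) : ∀ k : ℕ, aa m (dd (E := E) k) ≤ ww m k := by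
  have h0 : ∀ m : ℕ, aa m (dd (E := E) 0) = 0 := by
    intro m
    haveI : Subsingleton (degreeLT E 0) :=
      (degreeLTEquiv E 0).injective.subsingleton
    exact aa_subsingleton m _
  induction m with
  | zero =>
    intro k
    rcases k with _ | k
    · rw [h0]
      exact Nat.zero_le _
    · exact sd_dd (k + 1)
  | succ m ih =>
    intro k
    rcases k with _ | k
    · rw [h0]
      exact Nat.zero_le _
    · rw [aa_succ]
      exact (aa_dd m k).trans (Nat.add_le_add (ih k) (ih (k + 2)))

theorem aa_zero_end [CharZero E] (m : ℕ) : aa m (0 : Module.End E E) ≤ m.choose (m / 2) := by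
  refine le_trans (le_of_eq ?_) ((aa_dd_le (E := E) m 1).trans (ww_one m))
  refine (aa_equiv m ((degreeLTEquiv E 1).trans (LinearEquiv.funUnique (Fin 1) E E)) ?_).symm
  intro x
  have h1 : (x : E[X]) = C ((x : E[X]).coeff 0) := by
    ext i
    rw [coeff_C]
    split_ifs with hi
    · rw [hi]
    · exact mem_dL.1 x.2 i (by omega)
  have h2 : dd 1 x = 0 := by
    refine Subtype.ext ?_
    rw [dd_val, h1, derivative_C]
    rfl
  rw [h2, map_zero]
  rfl

/-- The base of the recursion. -/
theorem aa_base [CharZero E] [IsAlgClosed E] {Y : Type u} [AddCommGroup Y] [Module E Y] [FiniteDimensional E Y]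
    (g : Module.End E Y) (m : ℕ) : aa m g ≤ finrank E Y * m.choose (m / 2) := by
  have h1 := aa_tensor m (0 : Module.End E E) (finrank E Y) g rfl
  have h2 : aa m (der (0 : Module.End E E) g) = aa m g := by
    refine aa_equiv m (TensorProduct.lid E Y) fun x => ?_
    induction x using TensorProduct.induction_on with
    | zero => simp
    | tmul x y =>
      rw [der_tmul, map_add, TensorProduct.lid_tmul, TensorProduct.lid_tmul, TensorProduct.lid_tmul, map_smul]
      simp
    | add x y hx hy => rw [map_add, map_add, map_add, map_add, hx, hy]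
  rw [h2] at h1
  exact h1.trans (Nat.mul_le_mul_left _ (aa_zero_end m))

variable [IsAlgClosed E] [CharZero E]

/-- The number of the Jordan blocks of the `n`-th tensor power of a space of dimension `b` on which an endomorphism
acts with exactly one block of size two and `b - 2` blocks of size one, all with the eigenvalue zero. -/
def maxPart (b n : ℕ) : ℕ := ∑ k ∈ range (n + 1), n.choose k * ((b - 2) ^ (n - k) * k.choose (k / 2))

theorem maxPart_le {b : ℕ} (hb : 2 ≤ b) (n : ℕ) :
    (maxPart b n : ℝ) ≤ √((b : ℝ) / (2 * (n + 1))) * (b : ℝ) ^ n := by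
  obtain ⟨J, rfl⟩ : ∃ J, b = J + 2 := ⟨b - 2, by omega⟩
  have h4 := conc J n
  unfold maxPart
  rw [Nat.add_sub_cancel]
  set N := ∑ k ∈ range (n + 1), n.choose k * (J ^ (n - k) * k.choose (k / 2)) with hN
  set b : ℝ := ((J + 2 : ℕ) : ℝ) with hb'
  have hbJ : b = J + 2 := by rw [hb']; push_cast; ring
  rw [← hbJ] at h4
  have hb0 : (0 : ℝ) ≤ b := Nat.cast_nonneg _
  have h6 : (N : ℝ) ^ 2 ≤ (√(b / (2 * (n + 1))) * b ^ n) ^ 2 := by
    rw [mul_pow, Real.sq_sqrt (by positivity), ← pow_mul]
    have h7 : (0 : ℝ) < 2 * ((n : ℝ) + 1) := by positivity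
    rw [div_mul_eq_mul_div, le_div_iff₀ h7]
    refine h4.trans (le_of_eq ?_)
    rw [pow_succ, mul_comm n 2]
    ring
  exact le_of_sq_le_sq h6 (by positivity)

/-- **The bound for a sequence of tensor products.** -/
theorem main_bound {Y V : Type u} [AddCommGroup Y] [Module E Y] [FiniteDimensional E Y] [AddCommGroup V] [Module E V]
    [FiniteDimensional E V] {g : Module.End E Y} {f : Module.End E V} (hns : ⨆ μ : E, f.eigenspace μ ≠ ⊤)
    (W : ℕ → Type u) [∀ n, AddCommGroup (W n)] [∀ n, Module E (W n)] [∀ n, FiniteDimensional E (W n)]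
    (F : ∀ n, Module.End E (W n)) (e0 : Y ≃ₗ[E] W 0) (h0 : ∀ x, e0 (g x) = F 0 (e0 x))
    (e : ∀ n, (W n ⊗[E] V) ≃ₗ[E] W (n + 1))
    (he : ∀ n x, e n (der (F n) f x) = F (n + 1) (e n x)) (n : ℕ) :
    2 ≤ finrank E V ∧ sd (F n) ≤ finrank E Y * maxPart (finrank E V) n := by
  obtain ⟨w, v, l, hw, h1, h2⟩ := exists_block hns
  set b := finrank E V with hb
  have hb2 : 2 ≤ b := (aa_rec 0 g hw h1 h2).1
  refine ⟨hb2, ?_⟩
  obtain ⟨J, hJ⟩ : ∃ J, b = J + 2 := ⟨b - 2, by omega⟩
  have h3 := rec_bound (A := fun n m => aa m (F n)) (y := finrank E Y) (J := J) (K := fun m => m.choose (m / 2))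
    (fun m => by
      rw [← aa_equiv m e0 h0]
      exact aa_base g m)
    (fun n m => by
      rw [← aa_equiv m (e n) (he n)]
      have h4 := (aa_rec m (F n) hw h1 h2).2
      rwa [← hb, hJ, Nat.add_sub_cancel] at h4) n 0
  simp only [zero_add] at h3
  unfold maxPart
  rw [hJ, Nat.add_sub_cancel]
  exact h3

end Pool.Agent.X306.JC
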