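import Pool.Agent.X306.JC.B
import Pool.Agent.Helper462.Cb.Chev

/-!
# Lie algebras: a module on which the radical acts diagonalizably is semisimple
-/

set_option autoImplicit false

open Module TensorProduct

universe u

namespace Pool.Agent.X306.JC

section indep

variable {E : Type u} [Field E] {W : Type u} [AddCommGroup W] [Module E W]

theorem eq_of_indep {t P : E → Submodule E W} (ht : iSupIndep t) (hP : ∀ μ, P μ ≤ t μ) (htop : ⨆ μ, P μ = ⊤)
    (μ : E) : P μ = t μ := by
  refine le_antisymm (hP μ) ?_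
  set S := ⨆ ν, ⨆ (_ : ν ≠ μ), t ν with hS
  have h1 : P μ ⊔ S = ⊤ := by
    rw [eq_top_iff, ← htop]
    refine iSup_le fun ν => ?_
    by_cases h : ν = μ
    · rw [h]
      exact le_sup_left
    · exact (hP ν).trans (le_trans (le_iSup₂_of_le ν h le_rfl) le_sup_right)
  have h2 : Disjoint (t μ) S := ht μ
  have h3 : (P μ ⊔ S) ⊓ t μ = P μ ⊔ S ⊓ t μ := sup_inf_assoc_of_le S (hP μ)
  rw [h1, top_inf_eq, inf_comm, h2.eq_bot, sup_bot_eq] at h3
  exact h3.le

theorem maxGen_eq {f : Module.End E W} (h : ⨆ μ : E, f.eigenspace μ = ⊤) (μ : E) :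
    f.maxGenEigenspace μ = f.eigenspace μ :=
  (eq_of_indep f.independent_maxGenEigenspace (fun μ => (f.genEigenspace μ).monotone le_top) h μ).symm

end indep

section lie

open LieAlgebra

attribute [local instance 100] LieRing.ofAssociativeRing

variable {E : Type u} [Field E] [CharZero E] [IsAlgClosed E]

theorem hsplit : Cb.a19237_split E := fun L _ _ _ _ V _ _ _ _ _ V₁ h1 h2 => Cb.splitting_all E L V V₁ h1 h2

variable {L : Type u} [LieRing L] [LieAlgebra E L] [FiniteDimensional E L]
variable {V : Type u} [AddCommGroup V] [Module E V] [FiniteDimensional E V]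

section mod

variable [LieRingModule L V] [LieModule E L V]

theorem rad_central (hd : ∀ x ∈ radical E L, ⨆ μ : E, (LieModule.toEnd E L V x).eigenspace μ = ⊤) :
    ∀ x ∈ radical E L, ∀ (y : L) (v : V), ⁅⁅x, y⁆, v⁆ = 0 := by
  let N : LieSubmodule E L V :=
    { carrier := {v | ∀ x ∈ radical E L, ∀ y : L, ⁅⁅x, y⁆, v⁆ = 0}
      add_mem' := fun {a b} ha hb x hx y => by rw [lie_add, ha x hx y, hb x hx y, add_zero]
      zero_mem' := fun x hx y => lie_zero _
      smul_mem' := fun c v hv x hx y => by rw [lie_smul, hv x hx y, smul_zero]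
      lie_mem := fun {a v} hv x hx y => by
        change ⁅⁅x, y⁆, ⁅a, v⁆⁆ = 0
        rw [leibniz_lie, hv x hx y, lie_zero, add_zero]
        exact hv _ (lie_mem_left E L (radical E L) x y hx) a }
  have hN : N = ⊤ := by
    by_contra hne
    haveI : Nontrivial (V ⧸ N) := by
      have h1 : (N : Submodule E V) ≠ ⊤ := fun h => hne (LieSubmodule.toSubmodule_injective h)
      exact Submodule.Quotient.nontrivial_iff.2 h1
    haveI : FiniteDimensional E (V ⧸ N) := by
      change FiniteDimensional E (V ⧸ (N : Submodule E V))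
      infer_instance
    haveI : IsAtomic (LieSubmodule E L (V ⧸ N)) := inferInstance
    rcases IsAtomic.eq_bot_or_exists_atom_le (⊤ : LieSubmodule E L (V ⧸ N)) with h | ⟨T, hT, -⟩
    · exact absurd h top_ne_bot
    · apply hT.1
      rw [LieSubmodule.eq_bot_iff]
      intro q hq
      obtain ⟨v, rfl⟩ := LieSubmodule.Quotient.surjective_mk' N q
      have hv : v ∈ N := by
        intro x hx y
        obtain ⟨c, hc⟩ := Cb.a19237_R T hT x hx
        have h1 : ⁅⁅x, y⁆, LieSubmodule.Quotient.mk' N v⁆ = 0 := by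
          rw [lie_lie, hc _ hq, hc _ (T.lie_mem hq), lie_smul, sub_self]
        have h2 : ⁅⁅x, y⁆, v⁆ ∈ N := by
          rw [← LieModuleHom.map_lie] at h1
          exact (LieSubmodule.Quotient.mk_eq_zero N).1 h1
        have h3 : ⁅⁅x, y⁆, ⁅⁅x, y⁆, v⁆⁆ = 0 := h2 x hx y
        have h4 : v ∈ (LieModule.toEnd E L V ⁅x, y⁆).maxGenEigenspace 0 := by
          rw [Module.End.mem_maxGenEigenspace]
          refine ⟨2, ?_⟩
          rw [zero_smul, sub_zero, pow_two, Module.End.mul_apply]
          exact h3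
        rw [maxGen_eq (hd _ (lie_mem_left E L (radical E L) x y hx)), Module.End.mem_eigenspace_iff, zero_smul] at h4
        exact h4
      exact (LieSubmodule.Quotient.mk_eq_zero N).2 hv
  intro x hx y v
  have hv : v ∈ N := by
    rw [hN]
    exact LieSubmodule.mem_top v
  exact hv x hx y

theorem main_lie (hd : ∀ x ∈ radical E L, ⨆ μ : E, (LieModule.toEnd E L V x).eigenspace μ = ⊤)
    (W : LieSubmodule E L V) : ∃ W' : LieSubmodule E L V, IsCompl W W' := by
  have hc := rad_central hd
  have hcomm : ∀ x ∈ radical E L, ∀ (y : L) (v : V), ⁅x, ⁅y, v⁆⁆ = ⁅y, ⁅x, v⁆⁆ := by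
    intro x hx y v
    rw [leibniz_lie, hc x hx, zero_add]
  let f : radical E L → Module.End E V := fun x => LieModule.toEnd E L V x.1
  have htop := Module.End.iSup_iInf_maxGenEigenspace_eq_top_of_iSup_maxGenEigenspace_eq_top_of_commute f
    (fun x y _ => LinearMap.ext fun v => hcomm x.1 x.2 y.1 v) (fun x => Module.End.iSup_maxGenEigenspace_eq_top _)
  let H : (radical E L → E) → LieSubmodule E L V := fun χ =>
    { carrier := {v | ∀ x : radical E L, ⁅x.1, v⁆ = χ x • v}
      add_mem' := fun {a b} ha hb x => by rw [lie_add, ha x, hb x, smul_add]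
      zero_mem' := fun x => by rw [lie_zero, smul_zero]
      smul_mem' := fun c v hv x => by rw [lie_smul, hv x, smul_comm]
      lie_mem := fun {a v} hv x => by
        change ⁅x.1, ⁅a, v⁆⁆ = χ x • ⁅a, v⁆
        rw [hcomm x.1 x.2 a v, hv x, lie_smul] }
  refine Cb.a19237_S (Set.range H) ?_ ?_ W
  · have h1 : (⨆ χ : radical E L → E, ⨅ i, (f i).maxGenEigenspace (χ i)) ≤
        ((sSup (Set.range H) : LieSubmodule E L V) : Submodule E V) := by
      refine iSup_le fun χ v hv => ?_
      have h2 : v ∈ H χ := by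
        intro x
        have h3 := (Submodule.mem_iInf _).1 hv x
        rw [maxGen_eq (hd x.1 x.2)] at h3
        exact Module.End.mem_eigenspace_iff.1 h3
      exact (le_sSup (Set.mem_range_self χ) : H χ ≤ sSup (Set.range H)) h2
    rw [htop] at h1
    exact LieSubmodule.toSubmodule_injective (top_le_iff.1 h1)
  · rintro _ ⟨χ, rfl⟩ W hW
    obtain ⟨K, hK⟩ := Cb.a19237_B hsplit L (H χ)
      (fun x hx => ⟨χ ⟨x, hx⟩, fun v => Subtype.ext (v.2 ⟨x, hx⟩)⟩) (W.comap (H χ).incl)
    refine ⟨K.map (H χ).incl, ?_, ?_, ?_⟩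
    · rintro v hv
      obtain ⟨k, -, rfl⟩ := (LieSubmodule.mem_map v).1 hv
      exact k.2
    · rw [LieSubmodule.eq_bot_iff]
      intro v hv
      obtain ⟨hv1, hv2⟩ := (LieSubmodule.mem_inf _ _ v).1 hv
      obtain ⟨k, hk, rfl⟩ := (LieSubmodule.mem_map v).1 hv2
      have h3 : k ∈ (W.comap (H χ).incl) ⊓ K := (LieSubmodule.mem_inf _ _ k).2 ⟨hv1, hk⟩
      rw [hK.inf_eq_bot, LieSubmodule.mem_bot] at h3
      rw [h3, map_zero]
    · refine le_antisymm (sup_le hW ?_) ?_
      · rintro v hv
        obtain ⟨k, -, rfl⟩ := (LieSubmodule.mem_map v).1 hv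
        exact k.2
      · intro v hv
        have h3 : (⟨v, hv⟩ : H χ) ∈ (W.comap (H χ).incl) ⊔ K := by
          rw [hK.sup_eq_top]
          exact LieSubmodule.mem_top _
        obtain ⟨a, ha, b, hb, hab⟩ := (LieSubmodule.mem_sup _ _ _).1 h3
        refine (LieSubmodule.mem_sup _ _ _).2 ⟨a.1, ha, b.1, ?_, congrArg Subtype.val hab⟩
        exact (LieSubmodule.mem_map _).2 ⟨b, hb, rfl⟩

end mod

/-- A subspace stable under the Lie algebra. -/
def LSt (φ : L →ₗ⁅E⁆ Module.End E V) (U : Submodule E V) : Prop := ∀ l, ∀ u ∈ U, φ l u ∈ U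

theorem lie_ss (φ : L →ₗ⁅E⁆ Module.End E V) (hd : ∀ x ∈ radical E L, ⨆ μ : E, (φ x).eigenspace μ = ⊤)
    (U : Submodule E V) (hU : LSt φ U) : ∃ U', LSt φ U' ∧ IsCompl U U' := by
  letI : LieRingModule L V := LieRingModule.compLieHom V φ
  letI : LieModule E L V := LieModule.compLieHom V φ
  have hb : ∀ (l : L) (v : V), ⁅l, v⁆ = φ l v := fun _ _ => rfl
  have h1 : ∀ l : L, LieModule.toEnd E L V l = φ l := fun l => LinearMap.ext fun v => rfl
  let W : LieSubmodule E L V := { U with lie_mem := fun {a v} hv => hU a v hv }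
  obtain ⟨W', hW'⟩ := main_lie (L := L) (V := V) (fun x hx => by rw [h1]; exact hd x hx) W
  refine ⟨W', fun l u hu => W'.lie_mem hu, ?_⟩
  rw [isCompl_iff, disjoint_iff, codisjoint_iff] at hW' ⊢
  constructor
  · have h2 := congrArg (fun N : LieSubmodule E L V => (N : Submodule E V)) hW'.1
    simpa using h2
  · have h2 := congrArg (fun N : LieSubmodule E L V => (N : Submodule E V)) hW'.2
    simpa using h2

theorem rad_scalar (φ : L →ₗ⁅E⁆ Module.End E V) {T : Submodule E V} (hT : LSt φ T) (hne : T ≠ ⊥)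
    (hmin : ∀ T' ≤ T, LSt φ T' → T' = ⊥ ∨ T' = T) {x : L} (hx : x ∈ radical E L) :
    ∃ c : E, ∀ t ∈ T, φ x t = c • t := by
  letI : LieRingModule L V := LieRingModule.compLieHom V φ
  letI : LieModule E L V := LieModule.compLieHom V φ
  let W : LieSubmodule E L V := { T with lie_mem := fun {a v} hv => hT a v hv }
  have hW : (W : Submodule E V) = T := rfl
  refine Cb.a19237_R W ⟨fun h => hne ?_, fun K hK => ?_⟩ x hx
  · rw [← hW, h]
    rfl
  · rcases hmin (K : Submodule E V) (fun v hv => hK.le hv) (fun l u hu => K.lie_mem hu) with h | h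
    · exact LieSubmodule.toSubmodule_injective h
    · exact absurd (LieSubmodule.toSubmodule_injective (h.trans hW.symm)) hK.ne

end lie

end Pool.Agent.X306.JC
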