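import Pool.Agent.X306.JC.C
import Pool.Agent.TH91.RF.Bch

/-!
# The exponential and the logarithm over a field of characteristic zero
-/

set_option autoImplicit false

open Module TensorProduct

universe u

namespace Pool.Agent.X306.JC

open Pool.Agent.TH91.RF

section rexp

variable (E : Type u) [Field E] [CharZero E] {A : Type*} [Ring A] [Algebra E A]

/-- the rational algebra structure -/
noncomputable abbrev ratAlg (A : Type*) [Ring A] [Algebra E A] : Algebra ℚ A :=
  Algebra.compHom A (algebraMap ℚ E)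

theorem rat_smul (q : ℚ) (a : A) : letI := ratAlg E A; q • a = (q : E) • a := by
  change (algebraMap ℚ E q) • a = (q : E) • a
  simp

/-- exponential of a nilpotent element -/
noncomputable def rexp (a : A) : A := letI := ratAlg E A; IsNilpotent.exp a

theorem rexp_eq_sum {a : A} {k : ℕ} (h : a ^ k = 0) :
    rexp E a = ∑ i ∈ Finset.range k, ((i.factorial : E)⁻¹) • a ^ i := by
  let _ := ratAlg E A
  have h1 : rexp E a = ∑ i ∈ Finset.range k, (i.factorial : ℚ)⁻¹ • (a ^ i) :=
    IsNilpotent.exp_eq_sum h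
  rw [h1]
  refine Finset.sum_congr rfl fun i _ => ?_
  rw [rat_smul E]
  push_cast
  rfl

theorem rexp_add {a b : A} (h₁ : Commute a b) (h₂ : IsNilpotent a) (h₃ : IsNilpotent b) :
    rexp E (a + b) = rexp E a * rexp E b := by
  let _ := ratAlg E A
  exact IsNilpotent.exp_add_of_commute h₁ h₂ h₃

theorem rexp_zero : rexp E (0 : A) = 1 := by
  let _ := ratAlg E A
  exact IsNilpotent.exp_zero

/-- logarithm of a unipotent element -/
theorem exists_log (u : A) (hu : IsNilpotent (u - 1)) :
    ∃ D ∈ Algebra.adjoin E {u - 1}, IsNilpotent D ∧ rexp E D = u := by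
  let _ := ratAlg E A
  obtain ⟨m, hm⟩ := hu
  set n := u - 1 with hn
  set S := Algebra.adjoin E {n} with hS
  have hcomm : ∀ x ∈ S, ∀ y ∈ S, x * y = y * x := by
    intro x hx y hy
    have := Algebra.isMulCommutative_adjoin E (s := {n}) (by
      intro a ha b hb; rw [Set.mem_singleton_iff.mp ha, Set.mem_singleton_iff.mp hb])
    have h2 := this.is_comm.comm ⟨x, hx⟩ ⟨y, hy⟩
    exact congrArg Subtype.val h2
  have hnS : n ∈ S := Algebra.subset_adjoin rfl
  let Φ : Filt A m :=
    { F := fun k =>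
        { carrier := {x | ∃ y ∈ S, x = n ^ k * y}
          add_mem' := by
            rintro _ _ ⟨y, hy, rfl⟩ ⟨z, hz, rfl⟩
            exact ⟨y + z, S.add_mem hy hz, by rw [mul_add]⟩
          zero_mem' := ⟨0, S.zero_mem, by simp⟩
          smul_mem' := by
            rintro q _ ⟨y, hy, rfl⟩
            refine ⟨(q : E) • y, S.smul_mem hy _, ?_⟩
            rw [rat_smul E, mul_smul_comm] }
      anti := by
        rintro i j hij _ ⟨y, hy, rfl⟩
        refine ⟨n ^ (j - i) * y, S.mul_mem (S.pow_mem hnS _) hy, ?_⟩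
        rw [← mul_assoc, ← pow_add, Nat.add_sub_cancel' hij]
      mul := by
        rintro i j _ _ ⟨y, hy, rfl⟩ ⟨z, hz, rfl⟩
        refine ⟨y * z, S.mul_mem hy hz, ?_⟩
        rw [pow_add, mul_assoc, mul_assoc, ← mul_assoc y, hcomm y hy _ (S.pow_mem hnS j), mul_assoc]
      bot := by
        rintro _ ⟨y, hy, rfl⟩
        rw [hm, zero_mul] }
  have h1 : u - 1 ∈ Φ.F 1 := ⟨1, S.one_mem, by simp [hn]⟩
  obtain ⟨z, hz, hzu⟩ := Φ.exp_surj h1
  refine ⟨z, ?_, Φ.nilp hz, hzu⟩
  obtain ⟨y, hy, rfl⟩ := hz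
  exact S.mul_mem (S.pow_mem hnS 1) hy

theorem rexp_hom {B : Type*} [Ring B] [Algebra E B] (F : A →ₐ[E] B) {a : A} (ha : IsNilpotent a) :
    F (rexp E a) = rexp E (F a) := by
  obtain ⟨k, hk⟩ := ha
  rw [rexp_eq_sum E hk, rexp_eq_sum E (k := k) (by rw [← map_pow, hk, map_zero]), map_sum]
  refine Finset.sum_congr rfl fun i _ => ?_
  rw [map_smul, map_pow]

/-- `exp a - 1` is divisible by `a`. -/
theorem rexp_sub_one {a : A} (ha : IsNilpotent a) : ∃ c : A, Commute a c ∧ rexp E a = 1 + a * c := by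
  obtain ⟨k, hk⟩ := ha
  refine ⟨∑ i ∈ Finset.range k, (((i + 1).factorial : E)⁻¹) • a ^ i, ?_, ?_⟩
  · refine Commute.sum_right _ _ _ fun i _ => ?_
    exact ((Commute.refl a).pow_right i).smul_right _
  · rw [rexp_eq_sum E (k := k + 1) (by rw [pow_succ, hk, zero_mul]), Finset.sum_range_succ', add_comm]
    congr 1
    · simp
    · rw [Finset.mul_sum]
      refine Finset.sum_congr rfl fun i _ => ?_
      rw [mul_smul_comm, ← pow_succ']

theorem rexp_comm {a b : A} (ha : IsNilpotent a) (h : Commute b a) : Commute b (rexp E a) := by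
  obtain ⟨k, hk⟩ := ha
  rw [rexp_eq_sum E hk]
  refine Commute.sum_right _ _ _ fun i _ => ?_
  exact (h.pow_right i).smul_right _

end rexp

section stable

variable {E : Type u} [Field E] [CharZero E] {W : Type u} [AddCommGroup W] [Module E W]

/-- The coefficients of a polynomial with values in a subspace lie in the subspace. -/
theorem coeff_mem {S : Submodule E W} {k : ℕ} (q : ℕ → W)
    (h : ∀ m : ℕ, ∑ i ∈ Finset.range k, ((m : E) ^ i) • q i ∈ S) (i : ℕ) (hi : i < k) : q i ∈ S := by
  rw [← Submodule.Quotient.mk_eq_zero S, ← Module.forall_dual_apply_eq_zero_iff E]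
  intro ℓ
  set P : Polynomial E := ∑ i ∈ Finset.range k, Polynomial.C (ℓ (S.mkQ (q i))) * Polynomial.X ^ i with hP
  have h1 : ∀ m : ℕ, P.eval (m : E) = 0 := by
    intro m
    have h2 : S.mkQ (∑ i ∈ Finset.range k, ((m : E) ^ i) • q i) = 0 := by
      rw [Submodule.mkQ_apply, Submodule.Quotient.mk_eq_zero]
      exact h m
    have h3 := congrArg ℓ h2
    rw [map_sum, map_sum, map_zero] at h3
    rw [hP, Polynomial.eval_finsetSum, ← h3]
    refine Finset.sum_congr rfl fun j _ => ?_
    rw [map_smul, map_smul, Polynomial.eval_mul, Polynomial.eval_C, Polynomial.eval_pow, Polynomial.eval_X,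
      smul_eq_mul, mul_comm]
  have h2 : P = 0 := by
    refine Polynomial.eq_zero_of_infinite_isRoot _ (Set.Infinite.mono ?_
      (Set.infinite_range_of_injective (Nat.cast_injective (R := E))))
    rintro _ ⟨n, rfl⟩
    exact h1 n
  have h3 := congrArg (fun Q => Q.coeff i) h2
  simp only [hP, Polynomial.finsetSum_coeff, Polynomial.coeff_C_mul, Polynomial.coeff_X_pow, Polynomial.coeff_zero,
    mul_ite, mul_one, mul_zero, Finset.sum_ite_eq, Finset.mem_range, if_pos hi] at h3
  exact h3

theorem exp_stable {N : Module.End E W} (hN : IsNilpotent N) {S : Submodule E W}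
    (h : ∀ v ∈ S, rexp E N v ∈ S) : ∀ v ∈ S, N v ∈ S := by
  intro v hv
  obtain ⟨k, hk⟩ := hN
  have hN : IsNilpotent N := ⟨k, hk⟩
  have h1 : ∀ m : ℕ, rexp E ((m : E) • N) v ∈ S := by
    intro m
    induction m with
    | zero => rw [Nat.cast_zero, zero_smul, rexp_zero]; exact hv
    | succ m ih =>
      have h2 : ((m + 1 : ℕ) : E) • N = N + (m : E) • N := by
        push_cast
        rw [add_smul, one_smul, add_comm]
      rw [h2, rexp_add E ((Commute.refl N).smul_right _) hN (hN.smul _)]
      exact h _ ih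
  have h2 : ∀ m : ℕ, ∑ i ∈ Finset.range (k + 2), ((m : E) ^ i) • (((i.factorial : E)⁻¹) • (N ^ i) v) ∈ S := by
    intro m
    have h3 := h1 m
    rw [rexp_eq_sum E (k := k + 2) (by rw [smul_pow, pow_add N k 2, hk, zero_mul, smul_zero])] at h3
    convert h3 using 1
    rw [LinearMap.sum_apply]
    refine Finset.sum_congr rfl fun i _ => ?_
    rw [smul_pow, LinearMap.smul_apply, LinearMap.smul_apply, smul_comm]
  have h3 := coeff_mem _ h2 1 (by omega)
  simpa using h3

end stable

end Pool.Agent.X306.JC
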