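import Pool.Agent.X306.JC.D

/-!
# The Jordan decomposition and its derivations
-/

set_option autoImplicit false

open Module TensorProduct

universe u

namespace Pool.Agent.X306.JC

variable {E : Type u} [Field E] [CharZero E]

/-- `g = s exp(N)` is the multiplicative Jordan decomposition, and `X` acts by `φ μ` on the eigenspace of `s` for `μ`. -/
structure Jd {W : Type u} [AddCommGroup W] [Module E W] (φ : E → E) (g s X N : Module.End E W) : Prop where
  diag : ⨆ μ : E, s.eigenspace μ = ⊤
  comm : Commute s N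
  nil : IsNilpotent N
  eq : g = s * rexp E N
  hX : ∀ μ, ∀ v ∈ s.eigenspace μ, X v = φ μ • v

section basic

variable {W : Type u} [AddCommGroup W] [Module E W]

theorem ext_eig {s : Module.End E W} (hs : ⨆ μ : E, s.eigenspace μ = ⊤) {U : Type*} [AddCommGroup U] [Module E U]
    {A B : W →ₗ[E] U} (h : ∀ μ, ∀ v ∈ s.eigenspace μ, A v = B v) : A = B := by
  have h1 : (⨆ μ : E, s.eigenspace μ) ≤ LinearMap.eqLocus A B := iSup_le fun μ v hv => h μ v hv
  rw [hs] at h1
  exact LinearMap.ext fun v => h1 (Submodule.mem_top (x := v))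

/-- Functions of a diagonalizable endomorphism are polynomials in it. -/
theorem exists_fn [FiniteDimensional E W] {s : Module.End E W} (φ : E → E) :
    ∃ p : Polynomial E, ∀ μ, ∀ v ∈ s.eigenspace μ, Polynomial.aeval s p v = φ μ • v := by
  classical
  set F : Finset E := (Module.End.finite_hasEigenvalue (f := s)).toFinset with hF
  refine ⟨Lagrange.interpolate F id φ, fun μ v hv => ?_⟩
  by_cases h0 : v = 0
  · rw [h0, map_zero, smul_zero]
  have h1 : s.HasEigenvector μ v := ⟨hv, h0⟩
  rw [Module.End.aeval_apply_of_hasEigenvector h1]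
  congr 1
  exact Lagrange.eval_interpolate_at_node (v := id) φ Function.injective_id.injOn (by
    rw [hF, Set.Finite.mem_toFinset]
    exact Module.End.hasEigenvalue_of_hasEigenvector h1)

theorem Jd.s_inj {φ : E → E} {g s X N : Module.End E W} (h : Jd φ g s X N) (hg : Function.Injective g) :
    Function.Injective s := by
  rw [injective_iff_map_eq_zero] at hg ⊢
  intro v hv
  apply hg
  rw [h.eq, (rexp_comm E h.nil h.comm).eq, Module.End.mul_apply, hv, map_zero]

theorem eig_zero {s : Module.End E W} (hs : Function.Injective s) {v : W} (hv : v ∈ s.eigenspace 0) : v = 0 := by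
  rw [Module.End.mem_eigenspace_iff, zero_smul] at hv
  exact hs (hv.trans (map_zero s).symm)

/-- Existence. -/
theorem exists_jd [IsAlgClosed E] [FiniteDimensional E W] {g : Module.End E W} (hg : Function.Injective g) :
    ∃ s N : Module.End E W, ∀ φ : E → E, ∃ X, Jd φ g s X N := by
  obtain ⟨n, hn, s, hs, hnn, hss, hgs⟩ := g.exists_isNilpotent_isSemisimple
  have hcomm : Commute n s := by
    have := Algebra.isMulCommutative_adjoin E (s := {g}) (by
      intro a ha b hb; rw [Set.mem_singleton_iff.mp ha, Set.mem_singleton_iff.mp hb])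
    have h2 := this.is_comm.comm ⟨n, hn⟩ ⟨s, hs⟩
    exact congrArg Subtype.val h2
  have hgu : IsUnit g := by
    rw [Module.End.isUnit_iff]
    exact ⟨hg, LinearMap.injective_iff_surjective.1 hg⟩
  have hsu : IsUnit s := by
    have h1 : s = g + -n := by rw [hgs]; abel
    rw [h1]
    refine hnn.neg.isUnit_add_left_of_commute hgu ?_
    rw [hgs]
    exact ((Commute.refl n).add_right hcomm).neg_left
  obtain ⟨t, ht⟩ := hsu
  have hcomm' : Commute n (t⁻¹ : (Module.End E W)ˣ).1 := by
    rw [← ht] at hcomm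
    exact hcomm.units_inv_right
  set u : Module.End E W := 1 + (t⁻¹ : (Module.End E W)ˣ).1 * n with hu
  have hu1 : u - 1 = (t⁻¹ : (Module.End E W)ˣ).1 * n := by rw [hu]; abel
  have hun : IsNilpotent (u - 1) := by
    rw [hu1]
    exact hcomm'.symm.isNilpotent_mul_left hnn
  obtain ⟨N, hN, hNn, hNu⟩ := exists_log E u hun
  have hsN : Commute s N := by
    have h1 : Commute s (u - 1) := by
      rw [hu1, ← ht]
      refine Commute.mul_right ?_ ?_
      · exact (Commute.refl _).units_inv_right
      · rw [ht]; exact hcomm.symm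
    have h2 : Algebra.adjoin E {u - 1} ≤ Subalgebra.centralizer E {s} := by
      rw [Algebra.adjoin_le_iff]
      rintro _ rfl
      rw [SetLike.mem_coe, Subalgebra.mem_centralizer_iff]
      rintro _ rfl
      exact h1.eq
    exact (Subalgebra.mem_centralizer_iff E).1 (h2 hN) s rfl
  refine ⟨s, N, fun φ => ?_⟩
  obtain ⟨p, hp⟩ := exists_fn (s := s) φ
  refine ⟨Polynomial.aeval s p, ?_, hsN, hNn, ?_, hp⟩
  · rw [← Module.End.iSup_maxGenEigenspace_eq_top s]
    congr 1
    funext μ
    exact (hss.isFinitelySemisimple.maxGenEigenspace_eq_eigenspace μ).symm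
  · rw [hNu, hu, mul_add, mul_one, ← mul_assoc, ← ht, Units.mul_inv, one_mul, ht, hgs, add_comm]

end basic

section tensor

variable {W V : Type u} [AddCommGroup W] [Module E W] [AddCommGroup V] [Module E V]

theorem ext_eig2 {s : Module.End E W} {s' : Module.End E V} (hs : ⨆ μ : E, s.eigenspace μ = ⊤)
    (hs' : ⨆ μ : E, s'.eigenspace μ = ⊤) {U : Type*} [AddCommGroup U] [Module E U]
    {A B : W ⊗[E] V →ₗ[E] U}
    (h : ∀ μ ν, ∀ v ∈ s.eigenspace μ, ∀ w ∈ s'.eigenspace ν, A (v ⊗ₜ w) = B (v ⊗ₜ w)) : A = B := by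
  refine TensorProduct.ext (ext_eig hs fun μ v hv => ext_eig hs' fun ν w hw => ?_)
  exact h μ ν v hv w hw

theorem map_diag {s : Module.End E W} {s' : Module.End E V} (hs : ⨆ μ : E, s.eigenspace μ = ⊤)
    (hs' : ⨆ μ : E, s'.eigenspace μ = ⊤) : ⨆ μ : E, Module.End.eigenspace (TensorProduct.map s s') μ = ⊤ := by
  set S : Submodule E (W ⊗[E] V) := ⨆ μ : E, Module.End.eigenspace (TensorProduct.map s s') μ with hS
  have h1 : S.mkQ = 0 := by
    refine ext_eig2 hs hs' fun μ ν v hv w hw => ?_
    rw [LinearMap.zero_apply, Submodule.mkQ_apply, Submodule.Quotient.mk_eq_zero, hS]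
    refine Submodule.mem_iSup_of_mem (μ * ν) (Module.End.mem_eigenspace_iff.2 ?_)
    rw [TensorProduct.map_tmul, Module.End.mem_eigenspace_iff.1 hv, Module.End.mem_eigenspace_iff.1 hw,
      TensorProduct.smul_tmul_smul]
  rw [← Submodule.ker_mkQ S, h1, LinearMap.ker_zero]

theorem rexp_der {N : Module.End E W} {N' : Module.End E V} (hN : IsNilpotent N) (hN' : IsNilpotent N') :
    IsNilpotent (der N N') ∧ rexp E (der N N') = TensorProduct.map (rexp E N) (rexp E N') := by
  have h1 : der N N' = Module.End.rTensorAlgHom E W V N + Module.End.lTensorAlgHom E V W N' := rfl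
  have h2 : Commute (Module.End.rTensorAlgHom E W V N) (Module.End.lTensorAlgHom E V W N') := by
    refine TensorProduct.ext' fun x y => ?_
    rfl
  have h3 : IsNilpotent (Module.End.rTensorAlgHom E W V N) := hN.map _
  have h4 : IsNilpotent (Module.End.lTensorAlgHom E V W N') := hN'.map _
  rw [h1]
  refine ⟨h2.isNilpotent_add h3 h4, ?_⟩
  rw [rexp_add E h2 h3 h4, ← rexp_hom E _ hN, ← rexp_hom E _ hN']
  refine TensorProduct.ext' fun x y => ?_
  rfl

/-- The tensor product. -/
theorem Jd.tensor [FiniteDimensional E W] [FiniteDimensional E V] {φ : E → E}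
    (hφ : ∀ a b : E, a ≠ 0 → b ≠ 0 → φ (a * b) = φ a + φ b)
    {g s X N : Module.End E W} {g' s' X' N' : Module.End E V} (h : Jd φ g s X N) (h' : Jd φ g' s' X' N')
    (hg : Function.Injective g) (hg' : Function.Injective g') :
    Jd φ (TensorProduct.map g g') (TensorProduct.map s s') (der X X') (der N N') := by
  obtain ⟨hn, he⟩ := rexp_der h.nil h'.nil
  refine ⟨map_diag h.diag h'.diag, ?_, hn, ?_, ?_⟩
  · refine TensorProduct.ext' fun x y => ?_
    have h1 : ∀ x, s (N x) = N (s x) := fun x => LinearMap.congr_fun h.comm.eq x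
    have h2 : ∀ x, s' (N' x) = N' (s' x) := fun x => LinearMap.congr_fun h'.comm.eq x
    rw [Module.End.mul_apply, Module.End.mul_apply, TensorProduct.map_tmul, der_tmul, der_tmul, map_add,
      TensorProduct.map_tmul, TensorProduct.map_tmul, h1, h2]
  · rw [he, h.eq, h'.eq]
    refine TensorProduct.ext' fun x y => ?_
    rfl
  · obtain ⟨p, hp⟩ := exists_fn (s := TensorProduct.map s s') φ
    have h1 : Polynomial.aeval (TensorProduct.map s s') p = der X X' := by
      refine ext_eig2 h.diag h'.diag fun μ ν v hv w hw => ?_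
      by_cases hμ : μ = 0
      · rw [hμ] at hv
        rw [eig_zero (h.s_inj hg) hv, TensorProduct.zero_tmul, map_zero, map_zero]
      by_cases hν : ν = 0
      · rw [hν] at hw
        rw [eig_zero (h'.s_inj hg') hw, TensorProduct.tmul_zero, map_zero, map_zero]
      rw [hp (μ * ν) (v ⊗ₜ w) (Module.End.mem_eigenspace_iff.2 (by
        rw [TensorProduct.map_tmul, Module.End.mem_eigenspace_iff.1 hv, Module.End.mem_eigenspace_iff.1 hw,
          TensorProduct.smul_tmul_smul])), hφ μ ν hμ hν, der_tmul, h.hX μ v hv, h'.hX ν w hw, add_smul,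
        TensorProduct.tmul_smul, TensorProduct.smul_tmul']
    intro μ v hv
    rw [← h1]
    exact hp μ v hv

end tensor

section stab

variable {W : Type u} [AddCommGroup W] [Module E W] [FiniteDimensional E W]

/-- The generalized eigenspaces of `g` are the eigenspaces of `s`. -/
theorem Jd.gen {φ : E → E} {g s X N : Module.End E W} (h : Jd φ g s X N) (μ : E) :
    s.eigenspace μ = g.maxGenEigenspace μ := by
  refine eq_of_indep g.independent_maxGenEigenspace (fun μ v hv => ?_) h.diag μ
  rw [Module.End.mem_maxGenEigenspace]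
  obtain ⟨c, hc, hc'⟩ := rexp_sub_one E h.nil
  obtain ⟨k, hk⟩ := h.nil
  refine ⟨k, ?_⟩
  -- on the eigenspace `g - μ = μ (N c)`
  have hN : ∀ v ∈ s.eigenspace μ, N v ∈ s.eigenspace μ := by
    intro v hv
    rw [Module.End.mem_eigenspace_iff] at hv ⊢
    rw [← Module.End.mul_apply, h.comm.eq, Module.End.mul_apply, hv, map_smul]
  have hexp : ∀ v ∈ s.eigenspace μ, rexp E N v ∈ s.eigenspace μ := by
    intro v hv
    rw [Module.End.mem_eigenspace_iff] at hv ⊢
    rw [← Module.End.mul_apply, (rexp_comm E h.nil h.comm).eq, Module.End.mul_apply, hv, map_smul]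
  have hstep : ∀ v ∈ s.eigenspace μ, (g - μ • (1 : Module.End E W)) v = μ • (N * c) v := by
    intro v hv
    rw [LinearMap.sub_apply, LinearMap.smul_apply, Module.End.one_apply, h.eq, Module.End.mul_apply,
      Module.End.mem_eigenspace_iff.1 (hexp v hv), ← smul_sub, hc', LinearMap.add_apply, Module.End.one_apply,
      add_sub_cancel_left]
  have hNc : ∀ v ∈ s.eigenspace μ, (N * c) v ∈ s.eigenspace μ := by
    intro v hv
    have h1 : (N * c) v = rexp E N v - v := by
      rw [hc', LinearMap.add_apply, Module.End.one_apply, add_sub_cancel_left]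
    rw [h1]
    exact Submodule.sub_mem _ (hexp v hv) hv
  have hMk : (N * c) ^ k = 0 := by rw [hc.mul_pow, hk, zero_mul]
  generalize N * c = M at hstep hNc hMk
  have hpow : ∀ j : ℕ, ((g - μ • (1 : Module.End E W)) ^ j) v = (μ ^ j) • (M ^ j) v ∧
      (M ^ j) v ∈ s.eigenspace μ := by
    intro j
    induction j with
    | zero => exact ⟨by simp, by simpa using hv⟩
    | succ j ih =>
      obtain ⟨ih1, ih2⟩ := ih
      refine ⟨?_, ?_⟩
      · rw [pow_succ', Module.End.mul_apply, ih1, map_smul, hstep _ ih2, pow_succ' M, Module.End.mul_apply,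
          smul_smul, pow_succ]
      · rw [pow_succ' M, Module.End.mul_apply]
        exact hNc _ ih2
  rw [(hpow k).1, hMk, LinearMap.zero_apply, smul_zero]

/-- Stable subspaces of `g` are stable under `X` and `N`. -/
theorem Jd.stable {φ : E → E} {g s X N : Module.End E W} (h : Jd φ g s X N) (hg : Function.Injective g)
    {S : Submodule E W} (hS : ∀ v ∈ S, g v ∈ S) : (∀ v ∈ S, X v ∈ S) ∧ ∀ v ∈ S, N v ∈ S := by
  have h1 : S = ⨆ μ : E, S ⊓ s.eigenspace μ := by
    have h2 := Submodule.inf_iSup_genEigenspace (f := g) (p := S) hS ⊤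
    have h3 : ⨆ μ : E, g.genEigenspace μ ⊤ = ⊤ := by
      rw [← h.diag]
      congr 1
      funext μ
      exact (h.gen μ).symm
    rw [h3, inf_top_eq] at h2
    refine h2.trans ?_
    congr 1
    funext μ
    rw [h.gen μ]
  have hind : ∀ (A : Module.End E W), (∀ μ, ∀ v ∈ S, v ∈ s.eigenspace μ → A v ∈ S) → ∀ v ∈ S, A v ∈ S := by
    intro A hA v hv
    have h2 : (⨆ μ : E, S ⊓ s.eigenspace μ) ≤ S.comap A := iSup_le fun μ v hv => hA μ v hv.1 hv.2
    rw [← h1] at h2
    exact h2 hv
  refine ⟨hind X fun μ v hv hv' => ?_, exp_stable h.nil (hind _ fun μ v hv hv' => ?_)⟩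
  · rw [h.hX μ v hv']
    exact S.smul_mem _ hv
  · by_cases hμ : μ = 0
    · rw [hμ] at hv'
      rw [eig_zero (h.s_inj hg) hv', map_zero]
      exact S.zero_mem
    · have h2 : g v = μ • rexp E N v := by
        rw [h.eq, (rexp_comm E h.nil h.comm).eq, Module.End.mul_apply, Module.End.mem_eigenspace_iff.1 hv', map_smul]
      have h3 : rexp E N v = μ⁻¹ • g v := by
        rw [h2, smul_smul, inv_mul_cancel₀ hμ, one_smul]
      rw [h3]
      exact S.smul_mem _ (hS v hv)

theorem aeval_mem {S : Submodule E W} {X : Module.End E W} (hX : ∀ v ∈ S, X v ∈ S) (p : Polynomial E) :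
    ∀ v ∈ S, Polynomial.aeval X p v ∈ S := by
  induction p using Polynomial.induction_on' with
  | add p q hp hq =>
    intro v hv
    rw [map_add, LinearMap.add_apply]
    exact S.add_mem (hp v hv) (hq v hv)
  | monomial n a =>
    intro v hv
    rw [Polynomial.aeval_monomial, Module.End.mul_apply, Module.algebraMap_end_apply]
    refine S.smul_mem _ ?_
    induction n with
    | zero => simpa using hv
    | succ n ih =>
      rw [pow_succ', Module.End.mul_apply]
      exact hX _ ih

/-- Conversely, subspaces stable under `X` and `N` are stable under `g`, if `φ` separates the eigenvalues. -/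
theorem Jd.stable' {φ : E → E} {g s X N : Module.End E W} (h : Jd φ g s X N)
    (hinj : Set.InjOn φ {μ | s.HasEigenvalue μ})
    {S : Submodule E W} (hX : ∀ v ∈ S, X v ∈ S) (hN : ∀ v ∈ S, N v ∈ S) : ∀ v ∈ S, g v ∈ S := by
  classical
  set F : Finset E := (Module.End.finite_hasEigenvalue (f := s)).toFinset with hF
  have hinj' : Set.InjOn φ F := by
    rw [hF, Set.Finite.coe_toFinset]
    exact hinj
  set q := Lagrange.interpolate F φ id with hq
  have h1 : s = Polynomial.aeval X q := by
    refine ext_eig h.diag fun μ v hv => ?_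
    by_cases h0 : v = 0
    · rw [h0, map_zero, map_zero]
    have h1 : s.HasEigenvector μ v := ⟨hv, h0⟩
    have h2 : X.HasEigenvector (φ μ) v := ⟨Module.End.mem_eigenspace_iff.2 (h.hX μ v hv), h0⟩
    have h3 : q.eval (φ μ) = μ := Lagrange.eval_interpolate_at_node (v := φ) id hinj' (by
      rw [hF, Set.Finite.mem_toFinset]
      exact Module.End.hasEigenvalue_of_hasEigenvector h1)
    rw [Module.End.aeval_apply_of_hasEigenvector h2, h3, Module.End.mem_eigenspace_iff.1 hv]
  intro v hv
  rw [h.eq, Module.End.mul_apply, h1]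
  apply aeval_mem hX
  obtain ⟨k, hk⟩ := h.nil
  rw [rexp_eq_sum E hk, LinearMap.sum_apply]
  refine S.sum_mem fun i hi => ?_
  clear hi
  rw [LinearMap.smul_apply]
  refine S.smul_mem _ ?_
  induction i with
  | zero => simpa using hv
  | succ i ih =>
    rw [pow_succ', Module.End.mul_apply]
    exact hN _ ih

end stab

section phi

theorem units_torsion {a b : Eˣ} {c : ℤ} (hc : c ≠ 0) (h : c • (Additive.ofMul a - Additive.ofMul b) = 0) :
    ∃ m : ℕ, 0 < m ∧ a ^ m = b ^ m := by
  refine ⟨c.natAbs, Int.natAbs_pos.2 hc, ?_⟩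
  rw [← ofMul_div, ← ofMul_zpow] at h
  have h1 : (a / b) ^ c = 1 := h
  rw [← pow_natAbs_eq_one, div_pow, div_eq_one] at h1
  exact h1

/-- Logarithmic functions which separate finitely many multiplicatively independent elements. -/
theorem exists_phi (F : Finset E) (h0 : ∀ a ∈ F, a ≠ 0)
    (h : ∀ a ∈ F, ∀ b ∈ F, ∀ m : ℕ, 0 < m → a ^ m = b ^ m → a = b) :
    ∃ φ : E → E, (∀ a b : E, a ≠ 0 → b ≠ 0 → φ (a * b) = φ a + φ b) ∧ Set.InjOn φ F := by
  classical
  let A := Additive Eˣ
  let ι : A →ₗ[ℤ] ℚ ⊗[ℤ] A := TensorProduct.mk ℤ ℚ A 1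
  haveI : IsLocalizedModule (nonZeroDivisors ℤ) ι :=
    (isLocalizedModule_iff_isBaseChange (nonZeroDivisors ℤ) ℚ ι).2 (TensorProduct.isBaseChange ℤ A ℚ)
  let I := {p : F × F // p.1 ≠ p.2}
  let el : F → A := fun a => Additive.ofMul (Units.mk0 a.1 (h0 a.1 a.2))
  let v : I → ℚ ⊗[ℤ] A := fun p => ι (el p.1.1 - el p.1.2)
  have hv : ∀ i, v i ≠ 0 := by
    rintro ⟨⟨a, b⟩, hab⟩ hi
    obtain ⟨c, hc⟩ := (IsLocalizedModule.eq_zero_iff (nonZeroDivisors ℤ) ι).1 hi
    have hc0 : (c : ℤ) ≠ 0 := nonZeroDivisors.coe_ne_zero c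
    apply hab
    obtain ⟨m, hm, h3⟩ := units_torsion hc0 hc
    have h4 := congrArg Units.val h3
    rw [Units.val_pow_eq_pow_val, Units.val_pow_eq_pow_val, Units.val_mk0, Units.val_mk0] at h4
    exact Subtype.ext (h a.1 a.2 b.1 b.2 m hm h4)
  obtain ⟨ℓ, hℓ⟩ := Module.exists_dual_forall_apply_ne_zero (K := ℚ) v hv
  refine ⟨fun a => if ha : a = 0 then 0 else ((ℓ (ι (Additive.ofMul (Units.mk0 a ha))) : ℚ) : E), ?_, ?_⟩
  · intro a b ha hb
    have hab : a * b ≠ 0 := mul_ne_zero ha hb
    beta_reduce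
    rw [dif_neg ha, dif_neg hb, dif_neg hab]
    have h1 : Additive.ofMul (Units.mk0 (a * b) hab) =
        Additive.ofMul (Units.mk0 a ha) + Additive.ofMul (Units.mk0 b hb) := by
      rw [← ofMul_mul]
      congr 1
      exact Units.ext rfl
    rw [h1, map_add, map_add]
    push_cast
    rfl
  · intro a ha b hb hab
    by_contra hne
    have ha' : (a : E) ≠ 0 := h0 a ha
    have hb' : (b : E) ≠ 0 := h0 b hb
    simp only [dif_neg ha', dif_neg hb'] at hab
    have h1 := hℓ ⟨(⟨a, ha⟩, ⟨b, hb⟩), fun h => hne (congrArg Subtype.val h)⟩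
    apply h1
    change ℓ (ι (el ⟨a, ha⟩ - el ⟨b, hb⟩)) = 0
    rw [map_sub, map_sub, sub_eq_zero]
    exact_mod_cast hab

end phi

end Pool.Agent.X306.JC
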