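import Pool.Agent.X306.JC.G

/-!
# Representations of a group: averaging and the socle
-/

set_option autoImplicit false

open Module TensorProduct

universe u w

namespace Pool.Agent.X306.JC

variable {Γ : Type w} [Group Γ] {E : Type u} [Field E] {V : Type u} [AddCommGroup V] [Module E V]

/-- The subspace `U` is stable under the group `Γ`. -/
def Stable (ρ : Γ →* Module.End E V) (U : Submodule E V) : Prop := ∀ γ, ∀ u ∈ U, ρ γ u ∈ U

/-- The representation is semisimple: every stable subspace has a stable complement. -/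
def SemisimpleRep (ρ : Γ →* Module.End E V) : Prop :=
  ∀ U : Submodule E V, Stable ρ U → ∃ U' : Submodule E V, Stable ρ U' ∧ IsCompl U U'

/-- The subspace `U` is a simple subrepresentation. -/
def SimpleSub (ρ : Γ →* Module.End E V) (U : Submodule E V) : Prop :=
  Stable ρ U ∧ U ≠ ⊥ ∧ ∀ U' : Submodule E V, U' ≤ U → Stable ρ U' → U' = ⊥ ∨ U' = U

/-- The socle: the sum of the simple subrepresentations, which is the largest semisimple subrepresentation. -/
def socle (ρ : Γ →* Module.End E V) : Submodule E V := sSup {U | SimpleSub ρ U}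

section basic

variable {ρ : Γ →* Module.End E V}

theorem rho_inv (γ : Γ) (v : V) : ρ γ⁻¹ (ρ γ v) = v := by
  rw [← Module.End.mul_apply, ← map_mul, inv_mul_cancel, map_one, Module.End.one_apply]

theorem rho_inv' (γ : Γ) (v : V) : ρ γ (ρ γ⁻¹ v) = v := by
  rw [← Module.End.mul_apply, ← map_mul, mul_inv_cancel, map_one, Module.End.one_apply]

theorem rho_inj (γ : Γ) : Function.Injective (ρ γ) := fun x y h => by
  rw [← rho_inv (ρ := ρ) γ x, h, rho_inv]

theorem stable_sup {U U' : Submodule E V} (h : Stable ρ U) (h' : Stable ρ U') : Stable ρ (U ⊔ U') := by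
  intro γ u hu
  have h1 : U ⊔ U' ≤ (U ⊔ U').comap (ρ γ) :=
    sup_le (fun x hx => Submodule.mem_sup_left (h γ x hx)) (fun x hx => Submodule.mem_sup_right (h' γ x hx))
  exact h1 hu

theorem stable_inf {U U' : Submodule E V} (h : Stable ρ U) (h' : Stable ρ U') : Stable ρ (U ⊓ U') :=
  fun γ u hu => ⟨h γ u hu.1, h' γ u hu.2⟩

theorem stable_sSup {S : Set (Submodule E V)} (h : ∀ U ∈ S, Stable ρ U) : Stable ρ (sSup S) := by
  intro γ u hu
  have h1 : sSup S ≤ (sSup S).comap (ρ γ) :=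
    sSup_le fun U hU x hx => (le_sSup hU : U ≤ sSup S) (h U hU γ x hx)
  exact h1 hu

theorem socle_stable : Stable ρ (socle ρ) := stable_sSup fun _ hU => hU.1

variable [FiniteDimensional E V]

theorem exists_simple {U : Submodule E V} (hU : Stable ρ U) (hne : U ≠ ⊥) : ∃ T ≤ U, SimpleSub ρ T := by
  obtain ⟨T, ⟨hT1, hT2, hT3⟩, hmin⟩ := (wellFounded_lt (α := Submodule E V)).has_min
    {T | T ≤ U ∧ Stable ρ T ∧ T ≠ ⊥} ⟨U, le_rfl, hU, hne⟩
  refine ⟨T, hT1, hT2, hT3, fun T' hT' hst => ?_⟩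
  by_contra hcon
  push Not at hcon
  exact hmin T' ⟨hT'.trans hT1, hst, hcon.1⟩ (lt_of_le_of_ne hT' hcon.2)

theorem semisimple_iff_socle : SemisimpleRep ρ ↔ socle ρ = ⊤ := by
  constructor
  · intro h
    obtain ⟨U', hU', hc⟩ := h _ (socle_stable (ρ := ρ))
    by_cases h0 : U' = ⊥
    · rw [h0] at hc
      exact eq_top_of_isCompl_bot hc
    · obtain ⟨T, hT, hs⟩ := exists_simple hU' h0
      exact absurd (le_bot_iff.1 (hc.disjoint (le_sSup hs) hT)) hs.2.1
  · intro h U hU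
    obtain ⟨U', ⟨hU'1, hU'2⟩, hmax⟩ := (wellFounded_gt (α := Submodule E V)).has_min
      {T | Stable ρ T ∧ Disjoint U T} ⟨⊥, fun γ u hu => by
        rw [Submodule.mem_bot] at hu ⊢
        rw [hu, map_zero], disjoint_bot_right⟩
    refine ⟨U', hU'1, hU'2, ?_⟩
    rw [codisjoint_iff]
    by_contra hne
    obtain ⟨T, hT, hT'⟩ : ∃ T, SimpleSub ρ T ∧ ¬ T ≤ U ⊔ U' := by
      by_contra hcon
      push Not at hcon
      apply hne
      rw [eq_top_iff, ← h]
      exact sSup_le fun T hT => hcon T hT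
    have h1 : T ⊓ (U ⊔ U') = ⊥ := by
      rcases hT.2.2 (T ⊓ (U ⊔ U')) inf_le_left (stable_inf hT.1 (stable_sup hU hU'1)) with h1 | h1
      · exact h1
      · exact absurd (inf_eq_left.1 h1) hT'
    have h2 : Disjoint U (U' ⊔ T) := by
      rw [Submodule.disjoint_def]
      intro x hx hx'
      obtain ⟨a, ha, t, ht, rfl⟩ := Submodule.mem_sup.1 hx'
      have h3 : t ∈ T ⊓ (U ⊔ U') := ⟨ht, by
        have h4 : t = (a + t) - a := by abel
        rw [h4]
        exact Submodule.sub_mem _ (Submodule.mem_sup_left hx) (Submodule.mem_sup_right ha)⟩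
      rw [h1, Submodule.mem_bot] at h3
      subst h3
      rw [add_zero] at hx ⊢
      exact Submodule.disjoint_def.1 hU'2 a hx ha
    refine hmax (U' ⊔ T) ⟨stable_sup hU'1 hT.1, h2⟩ (lt_of_le_of_ne le_sup_left fun h3 => ?_)
    exact hT' ((le_sup_right.trans h3.ge).trans le_sup_right)

end basic

/-- Averaging over a subgroup of finite index. -/
theorem average [CharZero E] {ρ : Γ →* Module.End E V} (Γ₀ : Subgroup Γ) (hfin : Γ₀.FiniteIndex)
    {U U' : Submodule E V} (hU : Stable ρ U) (h' : ∀ γ ∈ Γ₀, ∀ u ∈ U', ρ γ u ∈ U') (hc : IsCompl U U') :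
    ∃ U'' : Submodule E V, Stable ρ U'' ∧ IsCompl U U'' := by
  classical
  obtain ⟨p, hp1, hp2, hp3⟩ : ∃ p : Module.End E V, (∀ v, p v ∈ U) ∧ (∀ u ∈ U, p u = u) ∧ ∀ u ∈ U', p u = 0 := by
    refine ⟨U.subtype ∘ₗ U.projectionOnto U' hc, fun v => ((U.projectionOnto U' hc) v).2, fun u hu => ?_, fun u hu => ?_⟩
    · have h1 := Submodule.projectionOnto_apply_left hc ⟨u, hu⟩
      exact congrArg Subtype.val h1
    · have h1 := (Submodule.projectionOnto_apply_eq_zero_iff hc (x := u)).2 hu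
      rw [LinearMap.comp_apply, h1, map_zero]
  have hpc : ∀ γ ∈ Γ₀, ∀ v, p (ρ γ v) = ρ γ (p v) := by
    intro γ hγ v
    obtain ⟨a, ha, b, hb, rfl⟩ : ∃ a ∈ U, ∃ b ∈ U', a + b = v := by
      have h1 : v ∈ U ⊔ U' := by rw [hc.sup_eq_top]; exact Submodule.mem_top
      exact Submodule.mem_sup.1 h1
    rw [map_add, map_add, map_add, hp2 a ha, hp3 b hb, hp2 _ (hU γ a ha), hp3 _ (h' γ hγ b hb), add_zero, add_zero]
  haveI : Fintype (Γ ⧸ Γ₀) := Subgroup.fintypeQuotientOfFiniteIndex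
  let F : Γ ⧸ Γ₀ → Module.End E V := fun c => ρ c.out * p * ρ c.out⁻¹
  have hF : ∀ γ : Γ, F (γ : Γ ⧸ Γ₀) = ρ γ * p * ρ γ⁻¹ := by
    intro γ
    obtain ⟨h, hh⟩ := QuotientGroup.mk_out_eq_mul Γ₀ γ
    refine LinearMap.ext fun v => ?_
    change ρ (γ : Γ ⧸ Γ₀).out (p (ρ (γ : Γ ⧸ Γ₀).out⁻¹ v)) = ρ γ (p (ρ γ⁻¹ v))
    rw [hh, mul_inv_rev, map_mul, map_mul, Module.End.mul_apply, Module.End.mul_apply,
      ← hpc h.1 h.2, rho_inv']
  have hFU : ∀ c, ∀ v, F c v ∈ U := fun c v => hU _ _ (hp1 _)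
  have hFu : ∀ c, ∀ u ∈ U, F c u = u := by
    intro c u hu
    change ρ c.out (p (ρ c.out⁻¹ u)) = u
    rw [hp2 _ (hU _ u hu), rho_inv']
  have hFγ : ∀ (δ : Γ) (c : Γ ⧸ Γ₀) (v : V), ρ δ (F c v) = F (δ • c) (ρ δ v) := by
    intro δ c v
    obtain ⟨γ, rfl⟩ := QuotientGroup.mk_surjective c
    rw [show δ • ((γ : Γ) : Γ ⧸ Γ₀) = ((δ * γ : Γ) : Γ ⧸ Γ₀) from rfl, hF, hF]
    change ρ δ (ρ γ (p (ρ γ⁻¹ v))) = ρ (δ * γ) (p (ρ (δ * γ)⁻¹ (ρ δ v)))
    rw [mul_inv_rev, map_mul, map_mul, Module.End.mul_apply, Module.End.mul_apply, rho_inv]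
  have hcard : ((Fintype.card (Γ ⧸ Γ₀) : ℕ) : E) ≠ 0 := by
    have : Fintype.card (Γ ⧸ Γ₀) ≠ 0 := Fintype.card_ne_zero
    exact_mod_cast this
  let q : Module.End E V := ((Fintype.card (Γ ⧸ Γ₀) : ℕ) : E)⁻¹ • ∑ c, F c
  have hqv : ∀ v, q v = ((Fintype.card (Γ ⧸ Γ₀) : ℕ) : E)⁻¹ • ∑ c, F c v := by
    intro v
    change ((Fintype.card (Γ ⧸ Γ₀) : ℕ) : E)⁻¹ • (∑ c, F c) v = _
    rw [LinearMap.sum_apply]
  have hqU : ∀ v, q v ∈ U := fun v => by
    rw [hqv]
    exact U.smul_mem _ (U.sum_mem fun c _ => hFU c v)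
  have hqu : ∀ u ∈ U, q u = u := by
    intro u hu
    rw [hqv, Finset.sum_congr rfl fun c _ => hFu c u hu, Finset.sum_const, Finset.card_univ, ← Nat.cast_smul_eq_nsmul E,
      smul_smul, inv_mul_cancel₀ hcard, one_smul]
  have hqγ : ∀ (δ : Γ) (v : V), ρ δ (q v) = q (ρ δ v) := by
    intro δ v
    rw [hqv, hqv, map_smul, map_sum, Finset.sum_congr rfl fun c _ => hFγ δ c v]
    congr 1
    exact Equiv.sum_comp (MulAction.toPerm δ) fun c => F c (ρ δ v)
  refine ⟨LinearMap.ker q, fun γ u hu => ?_, ?_, ?_⟩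
  · rw [LinearMap.mem_ker] at hu ⊢
    rw [← hqγ, hu, map_zero]
  · rw [Submodule.disjoint_def]
    intro x hx hx'
    rw [← hqu x hx]
    exact hx'
  · rw [codisjoint_iff, eq_top_iff]
    rintro v -
    refine Submodule.mem_sup.2 ⟨q v, hqU v, v - q v, ?_, by abel⟩
    rw [LinearMap.mem_ker, map_sub, hqu _ (hqU v), sub_self]

end Pool.Agent.X306.JC
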