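import Pool.Agent.X306.JC.H

/-!
# The bound for the socle of a sequence of tensor products
-/

set_option autoImplicit false

open Module TensorProduct LieAlgebra

universe u w

namespace Pool.Agent.X306.JC

attribute [local instance 100] LieRing.ofAssociativeRing

variable {E : Type u} [Field E]

section D

variable {V : Type u} [AddCommGroup V] [Module E V] {W : ℕ → Type u} [∀ n, AddCommGroup (W n)] [∀ n, Module E (W n)]

/-- The derivation of `W n` induced by endomorphisms of `V` and `W 0`. -/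
noncomputable def D (e : ∀ n, (W n ⊗[E] V) ≃ₗ[E] W (n + 1)) :
    (n : ℕ) → Module.End E V → Module.End E (W 0) → Module.End E (W n)
  | 0, _, y => y
  | n + 1, x, y => (e n).conj (der (D e n x y) x)

variable (e : ∀ n, (W n ⊗[E] V) ≃ₗ[E] W (n + 1))

theorem D_succ (n : ℕ) (x : Module.End E V) (y : Module.End E (W 0)) (z : W n ⊗[E] V) :
    D e (n + 1) x y (e n z) = e n (der (D e n x y) x z) := by
  change (e n).conj (der (D e n x y) x) (e n z) = _
  rw [LinearEquiv.conj_apply_apply, LinearEquiv.symm_apply_apply]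

theorem ext_e {n : ℕ} {U : Type*} [AddCommGroup U] [Module E U] {A B : W (n + 1) →ₗ[E] U}
    (h : ∀ x y, A (e n (x ⊗ₜ y)) = B (e n (x ⊗ₜ y))) : A = B := by
  have h1 : A.comp (e n).toLinearMap = B.comp (e n).toLinearMap := TensorProduct.ext' fun x y => h x y
  refine LinearMap.ext fun z => ?_
  obtain ⟨z, rfl⟩ := (e n).surjective z
  exact LinearMap.congr_fun h1 z

theorem D_add (n : ℕ) (x x' : Module.End E V) (y y' : Module.End E (W 0)) :
    D e n (x + x') (y + y') = D e n x y + D e n x' y' := by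
  induction n with
  | zero => rfl
  | succ n ih =>
    refine ext_e e fun a b => ?_
    rw [LinearMap.add_apply, D_succ, D_succ, D_succ, der_tmul, der_tmul, der_tmul, ih, ← map_add]
    congr 1
    rw [LinearMap.add_apply, LinearMap.add_apply, TensorProduct.add_tmul, TensorProduct.tmul_add]
    abel

theorem D_smul (n : ℕ) (c : E) (x : Module.End E V) (y : Module.End E (W 0)) :
    D e n (c • x) (c • y) = c • D e n x y := by
  induction n with
  | zero => rfl
  | succ n ih =>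
    refine ext_e e fun a b => ?_
    rw [LinearMap.smul_apply, D_succ, D_succ, der_tmul, der_tmul, ih, ← map_smul]
    congr 1
    rw [LinearMap.smul_apply, LinearMap.smul_apply, smul_add, TensorProduct.tmul_smul, TensorProduct.smul_tmul',
      TensorProduct.smul_tmul']

theorem lie_ap {A : Type u} [AddCommGroup A] [Module E A] (f g : Module.End E A) (v : A) :
    ⁅f, g⁆ v = f (g v) - g (f v) := rfl

theorem D_lie (n : ℕ) (x x' : Module.End E V) (y y' : Module.End E (W 0)) :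
    D e n ⁅x, x'⁆ ⁅y, y'⁆ = ⁅D e n x y, D e n x' y'⁆ := by
  induction n with
  | zero => rfl
  | succ n ih =>
    refine ext_e e fun a b => ?_
    rw [lie_ap, D_succ e n ⁅x, x'⁆ ⁅y, y'⁆, D_succ e n x' y', D_succ e n x y, D_succ e n x y, D_succ e n x' y', ih,
      ← map_sub]
    congr 1
    rw [der_tmul, der_tmul, der_tmul, map_add, map_add, der_tmul, der_tmul, der_tmul, der_tmul, lie_ap, lie_ap,
      TensorProduct.sub_tmul, TensorProduct.tmul_sub]
    abel

end D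

variable {Γ : Type w} [Group Γ]
variable {V : Type u} [AddCommGroup V] [Module E V] {W : ℕ → Type u} [∀ n, AddCommGroup (W n)] [∀ n, Module E (W n)]

/-- The Lie algebra of all pairs which preserve the stable subspaces. -/
noncomputable def LL (ρV : Γ →* Module.End E V) (ρ : ∀ n, Γ →* Module.End E (W n))
    (e : ∀ n, (W n ⊗[E] V) ≃ₗ[E] W (n + 1)) : LieSubalgebra E (Module.End E V × Module.End E (W 0)) where
  carrier := {p | (∀ S, Stable ρV S → ∀ v ∈ S, p.1 v ∈ S) ∧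
    ∀ n (S : Submodule E (W n)), Stable (ρ n) S → ∀ v ∈ S, D e n p.1 p.2 v ∈ S}
  add_mem' := by
    rintro p q ⟨h1, h2⟩ ⟨h3, h4⟩
    refine ⟨fun S hS v hv => S.add_mem (h1 S hS v hv) (h3 S hS v hv), fun n S hS v hv => ?_⟩
    rw [Prod.fst_add, Prod.snd_add, D_add]
    exact S.add_mem (h2 n S hS v hv) (h4 n S hS v hv)
  zero_mem' := by
    refine ⟨fun S hS v hv => S.zero_mem, fun n S hS v hv => ?_⟩
    have h : D e n (0 : Module.End E V) (0 : Module.End E (W 0)) = 0 := by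
      have h1 := D_smul e n (0 : E) (0 : Module.End E V) (0 : Module.End E (W 0))
      simpa using h1
    change D e n (0 : Module.End E V) (0 : Module.End E (W 0)) v ∈ S
    rw [h]
    exact S.zero_mem
  smul_mem' := by
    rintro c p ⟨h1, h2⟩
    refine ⟨fun S hS v hv => S.smul_mem c (h1 S hS v hv), fun n S hS v hv => ?_⟩
    rw [Prod.smul_fst, Prod.smul_snd, D_smul]
    exact S.smul_mem c (h2 n S hS v hv)
  lie_mem' := by
    rintro p q ⟨h1, h2⟩ ⟨h3, h4⟩
    refine ⟨fun S hS v hv => ?_, fun n S hS v hv => ?_⟩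
    · change p.1 (q.1 v) - q.1 (p.1 v) ∈ S
      exact S.sub_mem (h1 S hS _ (h3 S hS v hv)) (h3 S hS _ (h1 S hS v hv))
    · have h : D e n ⁅p, q⁆.1 ⁅p, q⁆.2 = ⁅D e n p.1 p.2, D e n q.1 q.2⁆ := D_lie e n _ _ _ _
      rw [h]
      change D e n p.1 p.2 (D e n q.1 q.2 v) - D e n q.1 q.2 (D e n p.1 p.2 v) ∈ S
      exact S.sub_mem (h2 n S hS _ (h4 n S hS v hv)) (h4 n S hS _ (h2 n S hS v hv))

variable {ρV : Γ →* Module.End E V} {ρ : ∀ n, Γ →* Module.End E (W n)} {e : ∀ n, (W n ⊗[E] V) ≃ₗ[E] W (n + 1)}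

/-- The action on `V`. -/
noncomputable def phiV : LL ρV ρ e →ₗ⁅E⁆ Module.End E V where
  toFun p := p.1.1
  map_add' _ _ := rfl
  map_smul' _ _ := rfl
  map_lie' := rfl

/-- The action on `W n`. -/
noncomputable def phiW (n : ℕ) : LL ρV ρ e →ₗ⁅E⁆ Module.End E (W n) where
  toFun p := D e n p.1.1 p.1.2
  map_add' p q := D_add e n _ _ _ _
  map_smul' c p := D_smul e n _ _ _
  map_lie' := D_lie e n _ _ _ _

/-- The Lie algebra is normalized by the group. -/
theorem D_conj (he : ∀ n γ z, e n (TensorProduct.map (ρ n γ) (ρV γ) z) = ρ (n + 1) γ (e n z)) (n : ℕ) (γ : Γ)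
    (x : Module.End E V) (y : Module.End E (W 0)) (v : W n) :
    D e n (ρV γ * x * ρV γ⁻¹) (ρ 0 γ * y * ρ 0 γ⁻¹) (ρ n γ v) = ρ n γ (D e n x y v) := by
  induction n with
  | zero =>
    change ρ 0 γ (y (ρ 0 γ⁻¹ (ρ 0 γ v))) = ρ 0 γ (y v)
    rw [rho_inv]
  | succ n ih =>
    have h1 : (D e (n + 1) (ρV γ * x * ρV γ⁻¹) (ρ 0 γ * y * ρ 0 γ⁻¹)).comp (ρ (n + 1) γ) =
        (ρ (n + 1) γ).comp (D e (n + 1) x y) := by
      refine ext_e e fun a b => ?_
      rw [LinearMap.comp_apply, LinearMap.comp_apply, D_succ, ← he, ← he, D_succ, TensorProduct.map_tmul, der_tmul,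
        der_tmul, map_add (TensorProduct.map _ _), TensorProduct.map_tmul, TensorProduct.map_tmul, ih]
      congr 2
      change _ ⊗ₜ[E] (ρV γ (x (ρV γ⁻¹ (ρV γ b)))) = _
      rw [rho_inv]
    exact LinearMap.congr_fun h1 v

theorem conj_mem (he : ∀ n γ z, e n (TensorProduct.map (ρ n γ) (ρV γ) z) = ρ (n + 1) γ (e n z)) (γ : Γ)
    {p : Module.End E V × Module.End E (W 0)} (hp : p ∈ LL ρV ρ e) :
    (ρV γ * p.1 * ρV γ⁻¹, ρ 0 γ * p.2 * ρ 0 γ⁻¹) ∈ LL ρV ρ e := by
  refine ⟨fun S hS v hv => ?_, fun n S hS v hv => ?_⟩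
  · exact hS γ _ (hp.1 S hS _ (hS _ v hv))
  · obtain ⟨v, rfl⟩ : ∃ v', v = ρ n γ v' := ⟨ρ n γ⁻¹ v, (rho_inv' γ v).symm⟩
    have h1 := D_conj he n γ p.1 p.2 v
    change D e n (ρV γ * p.1 * ρV γ⁻¹) (ρ 0 γ * p.2 * ρ 0 γ⁻¹) (ρ n γ v) ∈ S
    rw [h1]
    have h2 : v ∈ S := by
      rw [← rho_inv (ρ := ρ n) γ v]
      exact hS _ _ hv
    exact hS γ _ (hp.2 n S hS v h2)

variable [CharZero E]

theorem Jd.conj {A B : Type u} [AddCommGroup A] [Module E A] [AddCommGroup B] [Module E B] (κ : A ≃ₗ[E] B)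
    {φ : E → E} {g s X N : Module.End E A} (h : Jd φ g s X N) :
    Jd φ (κ.conj g) (κ.conj s) (κ.conj X) (κ.conj N) := by
  have hmul : ∀ a b : Module.End E A, κ.conj (a * b) = κ.conj a * κ.conj b := fun a b => κ.conj_comp b a
  have hone : κ.conj (1 : Module.End E A) = 1 := LinearMap.ext fun v => κ.apply_symm_apply v
  let F : Module.End E A →ₐ[E] Module.End E B := AlgHom.ofLinearMap κ.conj.toLinearMap hone hmul
  have hF : ∀ a, F a = κ.conj a := fun _ => rfl
  refine ⟨?_, ?_, ?_, ?_, ?_⟩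
  · have h1 : (⨆ μ : E, s.eigenspace μ) ≤ (⨆ μ : E, (κ.conj s).eigenspace μ).comap κ.toLinearMap := by
      refine iSup_le fun μ v hv => ?_
      refine Submodule.mem_iSup_of_mem μ (Module.End.mem_eigenspace_iff.2 ?_)
      change κ (s (κ.symm (κ v))) = μ • κ v
      rw [κ.symm_apply_apply, Module.End.mem_eigenspace_iff.1 hv, map_smul]
    rw [h.diag] at h1
    rw [eq_top_iff]
    rintro v -
    have h2 := h1 (Submodule.mem_top (x := κ.symm v))
    rw [Submodule.mem_comap] at h2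
    simpa using h2
  · change κ.conj s * κ.conj N = κ.conj N * κ.conj s
    rw [← hmul, ← hmul, h.comm.eq]
  · rw [← hF]
    exact h.nil.map F
  · rw [h.eq, hmul, ← hF (rexp E N), rexp_hom E F h.nil]
    rfl
  · intro μ v hv
    have h1 : κ.symm v ∈ s.eigenspace μ := by
      rw [Module.End.mem_eigenspace_iff] at hv ⊢
      have h2 := congrArg κ.symm hv
      rw [map_smul] at h2
      change κ.symm (κ (s (κ.symm v))) = _ at h2
      rwa [κ.symm_apply_apply] at h2
    change κ (X (κ.symm v)) = φ μ • v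
    rw [h.hX μ _ h1, map_smul, κ.apply_symm_apply]

variable [FiniteDimensional E V] [∀ n, FiniteDimensional E (W n)]

theorem jd_seq (he : ∀ n γ z, e n (TensorProduct.map (ρ n γ) (ρV γ) z) = ρ (n + 1) γ (e n z)) (γ : Γ)
    {φ : E → E} (hφ : ∀ a b : E, a ≠ 0 → b ≠ 0 → φ (a * b) = φ a + φ b) {s X N : Module.End E V}
    {s' X' N' : Module.End E (W 0)} (h : Jd φ (ρV γ) s X N) (h' : Jd φ (ρ 0 γ) s' X' N') (n : ℕ) :
    ∃ t, Jd φ (ρ n γ) t (D e n X X') (D e n N N') := by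
  induction n with
  | zero => exact ⟨s', h'⟩
  | succ n ih =>
    obtain ⟨t, ht⟩ := ih
    have h1 := Jd.conj (e n) (Jd.tensor hφ ht h (rho_inj γ) (rho_inj γ))
    refine ⟨(e n).conj (TensorProduct.map t s), ?_⟩
    have h2 : (e n).conj (TensorProduct.map (ρ n γ) (ρV γ)) = ρ (n + 1) γ := by
      refine LinearMap.ext fun z => ?_
      rw [LinearEquiv.conj_apply_apply, he, LinearEquiv.apply_symm_apply]
    rw [h2] at h1
    exact h1

/-- The eigenvalues of the endomorphism are distinct modulo roots of unity. -/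
def Neat {A : Type u} [AddCommGroup A] [Module E A] (g : Module.End E A) : Prop :=
  ∀ a b : E, g.HasEigenvalue a → g.HasEigenvalue b → ∀ m : ℕ, 0 < m → a ^ m = b ^ m → a = b

variable [IsAlgClosed E]

/-- The subspaces which are stable under the Lie algebra are stable under the neat elements of the group. -/
theorem neat_stable (he : ∀ n γ z, e n (TensorProduct.map (ρ n γ) (ρV γ) z) = ρ (n + 1) γ (e n z)) {γ : Γ}
    (hγ : Neat (ρV γ)) {U : Submodule E V} (hU : LSt (phiV (ρV := ρV) (ρ := ρ) (e := e)) U) :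
    ∀ u ∈ U, ρV γ u ∈ U := by
  classical
  obtain ⟨s, N, h⟩ := exists_jd (rho_inj (ρ := ρV) γ)
  obtain ⟨s', N', h'⟩ := exists_jd (rho_inj (ρ := ρ 0) γ)
  obtain ⟨X₀, hX₀⟩ := h id
  set F : Finset E := (Module.End.finite_hasEigenvalue (f := s)).toFinset with hF
  have hF' : ∀ a ∈ F, s.HasEigenvalue a := fun a ha => by
    rw [hF, Set.Finite.mem_toFinset] at ha
    exact ha
  have hg : ∀ a ∈ F, (ρV γ).HasEigenvalue a := by
    intro a ha
    have h1 : (ρV γ).HasUnifEigenvalue a ⊤ := by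
      have h2 := hX₀.gen a
      have h3 : s.eigenspace a ≠ ⊥ := hF' a ha
      rw [h2] at h3
      exact h3
    exact h1.lt zero_lt_one
  obtain ⟨φ, hφ, hinj⟩ := exists_phi F (fun a ha h0 => by
    obtain ⟨v, hv⟩ := (hF' a ha).exists_hasEigenvector
    rw [h0] at hv
    exact hv.2 (eig_zero (hX₀.s_inj (rho_inj γ)) hv.1)) (fun a ha b hb m hm hab => hγ a b (hg a ha) (hg b hb) m hm hab)
  obtain ⟨X, hX⟩ := h φ
  obtain ⟨X', hX'⟩ := h' φ
  have hmem : (X, X') ∈ LL ρV ρ e ∧ (N, N') ∈ LL ρV ρ e := by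
    refine ⟨⟨fun S hS v hv => (hX.stable (rho_inj γ) (hS γ)).1 v hv, fun n S hS v hv => ?_⟩,
      ⟨fun S hS v hv => (hX.stable (rho_inj γ) (hS γ)).2 v hv, fun n S hS v hv => ?_⟩⟩
    · obtain ⟨t, ht⟩ := jd_seq he γ hφ hX hX' n
      exact (ht.stable (rho_inj γ) (hS γ)).1 v hv
    · obtain ⟨t, ht⟩ := jd_seq he γ hφ hX hX' n
      exact (ht.stable (rho_inj γ) (hS γ)).2 v hv
  refine hX.stable' ?_ (fun v hv => hU ⟨(X, X'), hmem.1⟩ v hv) (fun v hv => hU ⟨(N, N'), hmem.2⟩ v hv)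
  rwa [hF, Set.Finite.coe_toFinset] at hinj

/-- If `V` is not semisimple then some element of the radical is not diagonalizable on `V`. -/
theorem exists_rad (he : ∀ n γ z, e n (TensorProduct.map (ρ n γ) (ρV γ) z) = ρ (n + 1) γ (e n z))
    {Γ₀ : Subgroup Γ} (hfin : Γ₀.FiniteIndex) (hneat : ∀ γ ∈ Γ₀, Neat (ρV γ)) (hns : ¬ SemisimpleRep ρV) :
    ∃ r ∈ radical E (LL ρV ρ e), ⨆ μ : E, (phiV r).eigenspace μ ≠ ⊤ := by
  by_contra hcon
  push Not at hcon
  apply hns
  intro U hU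
  obtain ⟨U', hU', hc⟩ := lie_ss (phiV (ρV := ρV) (ρ := ρ) (e := e)) hcon U (fun l u hu => l.2.1 U hU u hu)
  exact average Γ₀ hfin hU (fun γ hγ => neat_stable he (hneat γ hγ) hU') hc

/-- The radical acts diagonalizably on the socle of `W n`. -/
theorem socle_le (he : ∀ n γ z, e n (TensorProduct.map (ρ n γ) (ρV γ) z) = ρ (n + 1) γ (e n z)) (n : ℕ)
    {r : LL ρV ρ e} (hr : r ∈ radical E (LL ρV ρ e)) :
    socle (ρ n) ≤ ⨆ μ : E, (D e n r.1.1 r.1.2).eigenspace μ := by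
  refine sSup_le fun S hS => ?_
  let Min : Submodule E (W n) → Prop := fun T => LSt (phiW (ρV := ρV) (ρ := ρ) (e := e) n) T ∧ T ≠ ⊥ ∧
    ∀ T' ≤ T, LSt (phiW (ρV := ρV) (ρ := ρ) (e := e) n) T' → T' = ⊥ ∨ T' = T
  have hSL : LSt (phiW (ρV := ρV) (ρ := ρ) (e := e) n) S := fun l u hu => l.2.2 n S hS.1 u hu
  set K : Submodule E (W n) := sSup {T | Min T ∧ T ≤ S} with hK
  have hmap : ∀ (γ : Γ) (T : Submodule E (W n)), LSt (phiW (ρV := ρV) (ρ := ρ) (e := e) n) T →
      LSt (phiW (ρV := ρV) (ρ := ρ) (e := e) n) (T.map (ρ n γ)) := by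
    intro γ T hT l u hu
    obtain ⟨t, ht, rfl⟩ := Submodule.mem_map.1 hu
    have h1 := conj_mem he γ⁻¹ l.2
    refine Submodule.mem_map.2 ⟨D e n (ρV γ⁻¹ * l.1.1 * ρV γ⁻¹⁻¹) (ρ 0 γ⁻¹ * l.1.2 * ρ 0 γ⁻¹⁻¹) t, hT ⟨_, h1⟩ t ht, ?_⟩
    have h2 := D_conj he n γ⁻¹ l.1.1 l.1.2 (ρ n γ t)
    rw [rho_inv] at h2
    rw [h2, rho_inv']
    rfl
  have hKst : Stable (ρ n) K := by
    intro γ u hu
    have h1 : K ≤ K.comap (ρ n γ) := by
      refine sSup_le fun T hT x hx => ?_
      rw [Submodule.mem_comap]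
      refine (le_sSup (?_ : Min (T.map (ρ n γ)) ∧ T.map (ρ n γ) ≤ S) : T.map (ρ n γ) ≤ K)
        (Submodule.mem_map_of_mem hx)
      obtain ⟨⟨hT1, hT2, hT3⟩, hT4⟩ := hT
      refine ⟨⟨hmap γ T hT1, ?_, ?_⟩, ?_⟩
      · intro h0
        apply hT2
        rw [eq_bot_iff]
        intro t ht
        have h5 : ρ n γ t ∈ T.map (ρ n γ) := Submodule.mem_map_of_mem ht
        rw [h0, Submodule.mem_bot] at h5
        rw [Submodule.mem_bot]
        exact rho_inj γ (h5.trans (map_zero _).symm)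
      · intro T' hT' hst
        have h2 : T'.map (ρ n γ⁻¹) ≤ T := by
          rintro _ ⟨t, ht, rfl⟩
          obtain ⟨t', ht', rfl⟩ := Submodule.mem_map.1 (hT' ht)
          rw [rho_inv]
          exact ht'
        have h3 : ∀ x ∈ T', ρ n γ⁻¹ x ∈ T'.map (ρ n γ⁻¹) := fun x hx => Submodule.mem_map_of_mem hx
        rcases hT3 _ h2 (hmap γ⁻¹ T' hst) with h4 | h4
        · left
          rw [eq_bot_iff]
          intro x hx
          have h5 := h3 x hx
          rw [h4, Submodule.mem_bot] at h5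
          rw [Submodule.mem_bot, ← rho_inv' (ρ := ρ n) γ x, h5, map_zero]
        · right
          refine le_antisymm hT' ?_
          rintro _ ⟨t, ht, rfl⟩
          rw [SetLike.mem_coe, ← h4] at ht
          obtain ⟨x, hx, rfl⟩ := Submodule.mem_map.1 ht
          rw [rho_inv']
          exact hx
      · rintro _ ⟨t, ht, rfl⟩
        exact hS.1 γ t (hT4 ht)
    exact h1 hu
  have hK0 : K ≠ ⊥ := by
    obtain ⟨T, ⟨hT1, hT2, hT3⟩, hmin⟩ := (wellFounded_lt (α := Submodule E (W n))).has_min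
      {T | T ≤ S ∧ LSt (phiW (ρV := ρV) (ρ := ρ) (e := e) n) T ∧ T ≠ ⊥} ⟨S, le_rfl, hSL, hS.2.1⟩
    have hT : Min T := by
      refine ⟨hT2, hT3, fun T' hT' hst => ?_⟩
      by_contra hcon
      push Not at hcon
      exact hmin T' ⟨hT'.trans hT1, hst, hcon.1⟩ (lt_of_le_of_ne hT' hcon.2)
    intro h0
    have h1 : T ≤ K := le_sSup ⟨hT, hT1⟩
    rw [h0] at h1
    exact hT3 (le_bot_iff.1 h1)
  have hKS : K = S := by
    rcases hS.2.2 K (sSup_le fun T hT => hT.2) hKst with h | h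
    · exact absurd h hK0
    · exact h
  rw [← hKS]
  refine sSup_le fun T hT => ?_
  obtain ⟨c, hc⟩ := rad_scalar (phiW (ρV := ρV) (ρ := ρ) (e := e) n) hT.1.1 hT.1.2.1 hT.1.2.2 hr
  exact fun t ht => Submodule.mem_iSup_of_mem c (Module.End.mem_eigenspace_iff.2 (hc t ht))

/-- **The bound for the socle.** -/
theorem socle_bound (he : ∀ n γ z, e n (TensorProduct.map (ρ n γ) (ρV γ) z) = ρ (n + 1) γ (e n z))
    {Γ₀ : Subgroup Γ} (hfin : Γ₀.FiniteIndex) (hneat : ∀ γ ∈ Γ₀, Neat (ρV γ)) (hns : ¬ SemisimpleRep ρV) (n : ℕ) :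
    2 ≤ finrank E V ∧ finrank E (socle (ρ n)) ≤ finrank E (W 0) * maxPart (finrank E V) n := by
  obtain ⟨r, hr, hd⟩ := exists_rad (ρ := ρ) he hfin hneat hns
  obtain ⟨h0, h1⟩ := main_bound (g := r.1.2) (f := r.1.1) hd W (fun n => D e n r.1.1 r.1.2) (LinearEquiv.refl E _)
    (fun _ => rfl) e (fun n x => (D_succ e n _ _ x).symm) n
  exact ⟨h0, (Submodule.finrank_mono (socle_le he n hr)).trans h1⟩

end Pool.Agent.X306.JC
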