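import Pool.Agent.X306.JC.K

/-!
# Smooth proper varieties and their cohomology
-/

set_option autoImplicit false

open CategoryTheory AlgebraicGeometry Module TensorProduct Filter

universe u v w

namespace Pool.Agent.X306.JC

/-- A smooth proper variety over `k`: a smooth and proper scheme over `k`. -/
structure Variety (k : Type u) [Field k] where
  scheme : Scheme.{u}
  str : scheme ⟶ Spec (CommRingCat.of k)
  proper : IsProper str
  smooth : AlgebraicGeometry.Smooth str

variable {k : Type u} [Field k] {E : Type v} [Field E] {Γ : Type w} [Group Γ]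

namespace Variety

/-- The product over `k`. -/
noncomputable def prod (X Y : Variety k) : Variety k where
  scheme := Limits.pullback X.str Y.str
  str := Limits.pullback.fst X.str Y.str ≫ X.str
  proper := by
    haveI := X.proper
    haveI := Y.proper
    infer_instance
  smooth := by
    haveI := X.smooth
    haveI := Y.smooth
    infer_instance

/-- The product `Y × X ^ n`. -/
noncomputable def timesPow (Y X : Variety k) : ℕ → Variety k
  | 0 => Y
  | n + 1 => (timesPow Y X n).prod X

/-- The dimension. -/
noncomputable def dim (X : Variety k) : ℕ := ((topologicalKrullDim X.scheme).unbotD 0).toNat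

end Variety

/-- The representation `r` is isomorphic to the tensor product of `p` and `q`. -/
def IsTensorRep {V W U : Type v} [AddCommGroup V] [Module E V] [AddCommGroup W] [Module E W] [AddCommGroup U]
    [Module E U] (p : Γ →* Module.End E V) (q : Γ →* Module.End E W) (r : Γ →* Module.End E U) : Prop :=
  ∃ κ : (V ⊗[E] W) ≃ₗ[E] U, ∀ γ z, κ (TensorProduct.map (p γ) (q γ) z) = r γ (κ z)

/-- There is a subgroup of finite index, all elements of which are neat: the quotient of two different eigenvalues is
not a root of unity. -/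
def VirtuallyNeat {V : Type v} [AddCommGroup V] [Module E V] (p : Γ →* Module.End E V) : Prop :=
  ∃ Γ₀ : Subgroup Γ, Γ₀.FiniteIndex ∧ ∀ γ ∈ Γ₀, Neat (p γ)

/-- Cohomology groups `H X i` of the smooth proper varieties over `k` with an action `ρ X i` of the group `Γ`, for
example the étale cohomology groups `H^i(X ⊗ k̄, ℚ̄_ℓ)` with the action of the absolute Galois group of `k`. -/
structure Cohomology (Γ : Type w) [Group Γ] (k : Type u) [Field k] (E : Type v) [Field E] where
  H : Variety k → ℕ → Type v
  [group : ∀ X i, AddCommGroup (H X i)]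
  [module : ∀ X i, Module E (H X i)]
  ρ : ∀ X i, Γ →* Module.End E (H X i)

attribute [instance] Cohomology.group Cohomology.module

namespace Cohomology

variable (T : Cohomology Γ k E)

/-- The sum of the cohomology groups of all degrees. -/
abbrev Total (X : Variety k) : Type v := DirectSum ℕ (T.H X)

/-- The representation of `Γ` on the whole cohomology. -/
noncomputable def rep (X : Variety k) : Γ →* Module.End E (T.Total X) where
  toFun γ := DirectSum.lmap fun i => T.ρ X i γ
  map_one' := by
    refine DirectSum.linearMap_ext E fun i => LinearMap.ext fun x => ?_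
    rw [LinearMap.comp_apply, DirectSum.lmap_lof, map_one]
    rfl
  map_mul' γ δ := by
    refine DirectSum.linearMap_ext E fun i => LinearMap.ext fun x => ?_
    rw [LinearMap.comp_apply, LinearMap.comp_apply, Module.End.mul_apply, DirectSum.lmap_lof, DirectSum.lmap_lof,
      DirectSum.lmap_lof, map_mul]
    rfl

/-- The total Betti number of `X`. -/
noncomputable def betti (X : Variety k) : ℕ := finrank E (T.Total X)

/-- The dimension of the largest semisimple subrepresentation of the whole cohomology of `X`. -/
noncomputable def soc (X : Variety k) : ℕ := finrank E (socle (T.rep X))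

/-- The representation of `Γ` on each cohomology group of `X` is semisimple. -/
def Semisimple (X : Variety k) : Prop := ∀ i, SemisimpleRep (T.ρ X i)

/-- The known properties of the cohomology: it is finite-dimensional, the representations are virtually neat, the
Künneth formula holds, and the dimension is additive for (nonempty) varieties. -/
structure IsCohomology : Prop where
  finite : ∀ X, FiniteDimensional E (T.Total X)
  neat : ∀ X, VirtuallyNeat (T.rep X)
  kunneth : ∀ X Y : Variety k, IsTensorRep (T.rep X) (T.rep Y) (T.rep (X.prod Y))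
  dim_prod : ∀ X Y : Variety k, 0 < T.betti X → 0 < T.betti Y → (X.prod Y).dim = X.dim + Y.dim

/-- The upper bounds of the law, for all the varieties `Y × X ^ n`. -/
def FewSemisimple (X : Variety k) : Prop :=
  ∀ (Y : Variety k) (n : ℕ),
    T.soc (Y.timesPow X n) ≤ T.betti Y * maxPart (T.betti X) n ∧
    (T.betti Y * maxPart (T.betti X) n : ℝ) ≤ √((T.betti X : ℝ) / (2 * (n + 1))) * T.betti (Y.timesPow X n)

/-- The class `C` is closed under products and contains a curve. -/
def IsProductClass (C : Set (Variety k)) : Prop :=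
  (∀ X ∈ C, ∀ Y ∈ C, X.prod Y ∈ C) ∧ ∃ Z ∈ C, Z.dim = 1 ∧ 0 < T.betti Z

/-- For all `Z` in `C` the dimension of the largest semisimple subrepresentation is at least `f(dim Z) b(Z)`, for some
function `f` with `limsup f(d) √d = ∞`. -/
def MuchSemisimple (C : Set (Variety k)) : Prop :=
  ∃ f : ℕ → ℝ, (∀ B : ℝ, ∃ᶠ d : ℕ in atTop, B < f d * √(d : ℝ)) ∧ ∀ Z ∈ C, f Z.dim * T.betti Z ≤ T.soc Z

variable {T}

theorem rep_of (X : Variety k) (i : ℕ) (γ : Γ) (x : T.H X i) :
    T.rep X γ (DirectSum.lof E ℕ (T.H X) i x) = DirectSum.lof E ℕ (T.H X) i (T.ρ X i γ x) := by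
  change DirectSum.lmap (fun i => T.ρ X i γ) _ = _
  rw [DirectSum.lmap_lof]

theorem lof_inj (X : Variety k) (i : ℕ) : Function.Injective (DirectSum.lof E ℕ (T.H X) i) := by
  intro x y hxy
  have h := congrArg (DirectSum.component E ℕ (T.H X) i) hxy
  rwa [DirectSum.component.lof_self, DirectSum.component.lof_self] at h

theorem semisimple_iff (X : Variety k) [FiniteDimensional E (T.Total X)] :
    T.Semisimple X ↔ SemisimpleRep (T.rep X) := by
  haveI : ∀ i, FiniteDimensional E (T.H X i) := fun i =>
    FiniteDimensional.of_injective (DirectSum.lof E ℕ (T.H X) i) (lof_inj X i)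
  have hst : ∀ (i : ℕ) (U : Submodule E (T.H X i)), Stable (T.ρ X i) U →
      Stable (T.rep X) (U.map (DirectSum.lof E ℕ (T.H X) i)) := by
    intro i U hU γ u hu
    obtain ⟨x, hx, rfl⟩ := Submodule.mem_map.1 hu
    rw [rep_of]
    exact Submodule.mem_map_of_mem (hU γ x hx)
  have hst' : ∀ (i : ℕ) (U : Submodule E (T.Total X)), Stable (T.rep X) U →
      Stable (T.ρ X i) (U.comap (DirectSum.lof E ℕ (T.H X) i)) := by
    intro i U hU γ u hu
    rw [Submodule.mem_comap] at hu ⊢
    rw [← rep_of]
    exact hU γ _ hu
  constructor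
  · intro h
    rw [semisimple_iff_socle, eq_top_iff]
    rintro x -
    induction x using DirectSum.induction_on with
    | zero => exact Submodule.zero_mem _
    | of i x =>
      have h1 : socle (T.ρ X i) ≤ (socle (T.rep X)).comap (DirectSum.lof E ℕ (T.H X) i) := by
        refine sSup_le fun U hU x hx => ?_
        rw [Submodule.mem_comap]
        refine (le_sSup (?_ : SimpleSub (T.rep X) (U.map (DirectSum.lof E ℕ (T.H X) i))) :
          U.map (DirectSum.lof E ℕ (T.H X) i) ≤ socle (T.rep X)) (Submodule.mem_map_of_mem hx)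
        refine ⟨hst i U hU.1, fun h0 => hU.2.1 ?_, fun U' hU' hs => ?_⟩
        · rw [eq_bot_iff]
          intro y hy
          have h2 : DirectSum.lof E ℕ (T.H X) i y ∈ U.map (DirectSum.lof E ℕ (T.H X) i) :=
            Submodule.mem_map_of_mem hy
          rw [h0, Submodule.mem_bot] at h2
          exact lof_inj X i (h2.trans (map_zero _).symm)
        · have h2 : U'.comap (DirectSum.lof E ℕ (T.H X) i) ≤ U := by
            intro y hy
            obtain ⟨z, hz, hzy⟩ := Submodule.mem_map.1 (hU' hy)
            rwa [← lof_inj X i hzy]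
          have h3 : U' = (U'.comap (DirectSum.lof E ℕ (T.H X) i)).map (DirectSum.lof E ℕ (T.H X) i) := by
            refine le_antisymm (fun y hy => ?_) (Submodule.map_comap_le _ _)
            obtain ⟨z, hz, rfl⟩ := Submodule.mem_map.1 (hU' hy)
            exact Submodule.mem_map_of_mem hy
          rcases hU.2.2 _ h2 (hst' i U' hs) with h4 | h4
          · left
            rw [h3, h4, Submodule.map_bot]
          · right
            rw [h3, h4]
      rw [semisimple_iff_socle.1 (h i)] at h1
      exact h1 (Submodule.mem_top (x := x))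
    | add x y hx hy => exact Submodule.add_mem _ hx hy
  · intro h i U hU
    obtain ⟨U', hU', hc⟩ := h _ (hst i U hU)
    refine ⟨U'.comap (DirectSum.lof E ℕ (T.H X) i), hst' i U' hU', ?_, ?_⟩
    · rw [Submodule.disjoint_def]
      intro x hx hx'
      have h1 := Submodule.disjoint_def.1 hc.disjoint _ (Submodule.mem_map_of_mem hx) hx'
      exact lof_inj X i (h1.trans (map_zero _).symm)
    · rw [codisjoint_iff, eq_top_iff]
      rintro x -
      have h1 : DirectSum.lof E ℕ (T.H X) i x ∈ U.map (DirectSum.lof E ℕ (T.H X) i) ⊔ U' := by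
        rw [hc.sup_eq_top]
        exact Submodule.mem_top
      obtain ⟨a, ha, b, hb, hab⟩ := Submodule.mem_sup.1 h1
      obtain ⟨a, ha', rfl⟩ := Submodule.mem_map.1 ha
      refine Submodule.mem_sup.2 ⟨a, ha', x - a, ?_, by abel⟩
      rw [Submodule.mem_comap, map_sub, ← hab, add_sub_cancel_left]
      exact hb

theorem semisimple_iff_soc (hT : T.IsCohomology) (X : Variety k) : T.Semisimple X ↔ T.soc X = T.betti X := by
  haveI := hT.finite X
  rw [semisimple_iff, semisimple_iff_socle]
  constructor
  · intro h
    unfold soc betti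
    rw [h, finrank_top]
  · intro h
    exact Submodule.eq_top_of_finrank_eq h

theorem betti_prod (hT : T.IsCohomology) (X Y : Variety k) : T.betti (X.prod Y) = T.betti X * T.betti Y := by
  obtain ⟨κ, -⟩ := hT.kunneth X Y
  unfold betti
  rw [← κ.finrank_eq, Module.finrank_tensorProduct]

theorem betti_timesPow (hT : T.IsCohomology) (Y X : Variety k) (n : ℕ) :
    T.betti (Y.timesPow X n) = T.betti Y * T.betti X ^ n := by
  induction n with
  | zero => rw [pow_zero, mul_one]; rfl
  | succ n ih =>
    change T.betti ((Y.timesPow X n).prod X) = _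
    rw [betti_prod hT, ih, pow_succ, mul_assoc]

theorem dim_timesPow (hT : T.IsCohomology) (Y X : Variety k) (hY : 0 < T.betti Y) (hX : 0 < T.betti X) (n : ℕ) :
    (Y.timesPow X n).dim = Y.dim + n * X.dim := by
  induction n with
  | zero => rw [zero_mul, add_zero]; rfl
  | succ n ih =>
    change ((Y.timesPow X n).prod X).dim = _
    have h : 0 < T.betti (Y.timesPow X n) := by
      rw [betti_timesPow hT]
      positivity
    rw [hT.dim_prod _ _ h hX, ih]
    ring

variable [IsAlgClosed E] [CharZero E]

/-- **The law.** -/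
theorem law (hT : T.IsCohomology) (X : Variety k) (hX : ¬ T.Semisimple X) : T.FewSemisimple X := by
  intro Y n
  haveI := hT.finite
  rw [semisimple_iff] at hX
  have hk : ∀ n, ∃ κ : (T.Total (Y.timesPow X n) ⊗[E] T.Total X) ≃ₗ[E] T.Total (Y.timesPow X (n + 1)),
      ∀ γ z, κ (TensorProduct.map (T.rep (Y.timesPow X n) γ) (T.rep X γ) z) = T.rep (Y.timesPow X (n + 1)) γ (κ z) :=
    fun n => hT.kunneth _ _
  choose κ hκ using hk
  obtain ⟨Γ₀, hfin, hneat⟩ := hT.neat X
  obtain ⟨h1, h2⟩ := socle_bound (ρV := T.rep X) (W := fun n => T.Total (Y.timesPow X n))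
    (ρ := fun n => T.rep (Y.timesPow X n)) (e := κ) hκ hfin hneat hX n
  refine ⟨h2, ?_⟩
  rw [betti_timesPow hT]
  have h3 := mul_le_mul_of_nonneg_left (maxPart_le h1 n) (Nat.cast_nonneg (α := ℝ) (T.betti Y))
  refine h3.trans (le_of_eq ?_)
  push_cast
  unfold betti
  ring

/-- **The criterion for a class of varieties.** -/
theorem class_iff (hT : T.IsCohomology) (C : Set (Variety k))
    (hC : ∀ X ∈ C, ∀ Y ∈ C, X.prod Y ∈ C) (Z₁ : Variety k) (hE : Z₁ ∈ C) (hE1 : Z₁.dim = 1)
    (hE0 : 0 < T.betti Z₁) :
    (∀ X ∈ C, T.Semisimple X) ↔ T.MuchSemisimple C := by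
  constructor
  · intro h
    refine ⟨fun _ => 1, fun B => ?_, fun Z hZ => ?_⟩
    · refine Eventually.frequently ?_
      have h1 : Tendsto (fun d : ℕ => √(d : ℝ)) atTop atTop :=
        Real.tendsto_sqrt_atTop.comp tendsto_natCast_atTop_atTop
      filter_upwards [h1.eventually_gt_atTop B] with d hd
      rwa [one_mul]
    · rw [one_mul, (semisimple_iff_soc hT Z).1 (h Z hZ)]
  · rintro ⟨f, hf, hfC⟩ X hX
    by_contra hcon
    have hX0 : 0 < T.betti X := by
      by_contra h0
      apply hcon
      haveI := hT.finite X
      rw [semisimple_iff_soc hT]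
      have h1 : T.soc X ≤ T.betti X := Submodule.finrank_le _
      omega
    set e' : ℕ := max X.dim 1 with he'
    have he'1 : 1 ≤ e' := le_max_right _ _
    have he'2 : X.dim ≤ e' := le_max_left _ _
    set b : ℝ := (T.betti X : ℝ) with hb
    have hb0 : 0 ≤ b := Nat.cast_nonneg _
    obtain ⟨d, hd, hfd⟩ := (frequently_atTop.1 (hf (√(b * e' / 2)))) 1
    set n := (d - 1) / e' with hn
    have h1 : n * e' ≤ d - 1 := Nat.div_mul_le_self _ _
    have h2 : d ≤ (n + 1) * e' := by
      have h3 := Nat.lt_div_mul_add (a := d - 1) (b := e') (by omega)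
      rw [← hn] at h3
      have h4 : (n + 1) * e' = n * e' + e' := by ring
      omega
    have h3 : n * X.dim ≤ n * e' := Nat.mul_le_mul_left _ he'2
    obtain ⟨j, hj⟩ : ∃ j, d = (j + 1) + n * X.dim := ⟨d - n * X.dim - 1, by omega⟩
    have hmem : ∀ (Y : Variety k), Y ∈ C → ∀ X ∈ C, ∀ n, Y.timesPow X n ∈ C := by
      intro Y hY X hX n
      induction n with
      | zero => exact hY
      | succ n ih => exact hC _ ih _ hX
    set Y := Z₁.timesPow Z₁ j with hY
    have hY0 : 0 < T.betti Y := by
      rw [hY, betti_timesPow hT]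
      positivity
    have hYd : Y.dim = j + 1 := by
      rw [hY, dim_timesPow hT _ _ hE0 hE0, hE1]
      ring
    have hZC : Y.timesPow X n ∈ C := hmem _ (hmem _ hE _ hE j) _ hX n
    have hZd : (Y.timesPow X n).dim = d := by
      rw [dim_timesPow hT _ _ hY0 hX0, hYd, hj]
    have h4 := hfC _ hZC
    rw [hZd] at h4
    obtain ⟨h5a, h5b⟩ := law hT X hcon Y n
    have h5c : (T.soc (Y.timesPow X n) : ℝ) ≤ T.betti Y * maxPart (T.betti X) n := by exact_mod_cast h5a
    have h5 := (h4.trans h5c).trans h5b
    have hpos : (0 : ℝ) < T.betti (Y.timesPow X n) := by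
      have h6 : 0 < T.betti (Y.timesPow X n) := by
        rw [betti_timesPow hT]
        positivity
      exact_mod_cast h6
    have h6 := le_of_mul_le_mul_right h5 hpos
    have hd0 : (0 : ℝ) < d := by
      have : 0 < d := by omega
      exact_mod_cast this
    have h7 : √(b / (2 * ((n : ℝ) + 1))) ≤ √(b * e' / (2 * d)) := by
      apply Real.sqrt_le_sqrt
      rw [div_le_div_iff₀ (by positivity) (by positivity)]
      have h8 : (d : ℝ) ≤ ((n : ℝ) + 1) * e' := by exact_mod_cast h2
      nlinarith
    have h8 : f d * √(d : ℝ) ≤ √(b * e' / (2 * d)) * √(d : ℝ) :=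
      mul_le_mul_of_nonneg_right (h6.trans h7) (Real.sqrt_nonneg _)
    rw [← Real.sqrt_mul (by positivity), show b * e' / (2 * d) * d = b * e' / 2 by field_simp] at h8
    exact absurd hfd (not_lt.2 h8)

end Cohomology

end Pool.Agent.X306.JC
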